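import Mathlib

/-!
# Products of boundedly many commutators in solvable groups

`IsProdComm n g` says that `g` is a product of `n` commutators.
-/

open scoped commutatorElement

namespace Pool.Agent.Helper26.CW

universe u

section basic

variable {G : Type u} [Group G]

/-- `g` is a product of `n` commutators. -/
def IsProdComm (n : ℕ) (g : G) : Prop :=
  ∃ l : List (G × G), l.length = n ∧ g = (l.map (fun p => ⁅p.1, p.2⁆)).prod

lemma isProdComm_zero : IsProdComm 0 (1 : G) := ⟨[], rfl, rfl⟩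

lemma isProdComm_comm (a b : G) : IsProdComm 1 ⁅a, b⁆ := ⟨[(a, b)], rfl, by simp⟩

lemma IsProdComm.mul {m n : ℕ} {g h : G} (hg : IsProdComm m g) (hh : IsProdComm n h) :
    IsProdComm (m + n) (g * h) := by
  obtain ⟨l, hl, rfl⟩ := hg
  obtain ⟨l', hl', rfl⟩ := hh
  exact ⟨l ++ l', by simp [hl, hl'], by simp⟩

lemma IsProdComm.one (n : ℕ) : IsProdComm n (1 : G) := by
  induction n with
  | zero => exact isProdComm_zero
  | succ n ih => simpa using ih.mul (isProdComm_comm (1 : G) 1)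

lemma IsProdComm.mono {m n : ℕ} (h : m ≤ n) {g : G} (hg : IsProdComm m g) : IsProdComm n g := by
  obtain ⟨k, rfl⟩ := Nat.exists_eq_add_of_le h
  simpa using hg.mul (IsProdComm.one k)

/-- Lifting a product of commutators from a quotient. -/
lemma exists_of_quotient (A : Subgroup G) [A.Normal] {n : ℕ} {g : G}
    (h : IsProdComm n (QuotientGroup.mk g : G ⧸ A)) :
    ∃ c a : G, IsProdComm n c ∧ a ∈ A ∧ g = c * a := by
  obtain ⟨l, hl, hg⟩ := h
  have key : ∀ l : List ((G ⧸ A) × (G ⧸ A)), ∃ l' : List (G × G), l'.length = l.length ∧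
      (QuotientGroup.mk ((l'.map (fun p => ⁅p.1, p.2⁆)).prod) : G ⧸ A) =
        (l.map (fun p => ⁅p.1, p.2⁆)).prod := by
    intro l
    induction l with
    | nil => exact ⟨[], rfl, by simp⟩
    | cons p l ih =>
      obtain ⟨l', hl', h'⟩ := ih
      obtain ⟨a, ha⟩ := QuotientGroup.mk_surjective p.1
      obtain ⟨b, hb⟩ := QuotientGroup.mk_surjective p.2
      refine ⟨(a, b) :: l', by simp [hl'], ?_⟩
      have : (QuotientGroup.mk ⁅a, b⁆ : G ⧸ A) = ⁅p.1, p.2⁆ := by
        rw [← ha, ← hb]; rfl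
      simp only [List.map_cons, List.prod_cons]
      rw [QuotientGroup.mk_mul, this, h']
  obtain ⟨l', hl', h'⟩ := key l
  refine ⟨(l'.map (fun p => ⁅p.1, p.2⁆)).prod, ((l'.map (fun p => ⁅p.1, p.2⁆)).prod)⁻¹ * g,
    ⟨l', hl'.trans hl, rfl⟩, ?_, by group⟩
  rw [← QuotientGroup.eq, h', hg]

end basic

section normalForm

variable {M : Type*} [Monoid M] {Y : Type*}

/-- Products `a₁ a₂ ⋯ aₖ` with `aᵢ ∈ F yᵢ`. -/
def NF (F : Y → Set M) (ys : List Y) (x : M) : Prop :=
  ∃ as : List M, List.Forall₂ (fun y a => a ∈ F y) ys as ∧ x = as.prod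

lemma NF.one (F : Y → Set M) (h1 : ∀ y, (1 : M) ∈ F y) (ys : List Y) : NF F ys (1 : M) := by
  induction ys with
  | nil => exact ⟨[], List.Forall₂.nil, rfl⟩
  | cons y ys ih =>
    obtain ⟨as, has, h⟩ := ih
    exact ⟨1 :: as, List.Forall₂.cons (h1 y) has, by simpa using h⟩

lemma NF.step (F : Y → Set M) (hm : ∀ y, ∀ a ∈ F y, ∀ b ∈ F y, a * b ∈ F y)
    (hc : ∀ y y', ∀ a ∈ F y, ∀ b ∈ F y', a * b = b * a) (ys : List Y) {y : Y} (hy : y ∈ ys)
    {m : M} (hmy : m ∈ F y) {x : M} (hx : NF F ys x) : NF F ys (m * x) := by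
  induction ys generalizing x with
  | nil => simp at hy
  | cons y₀ ys ih =>
    obtain ⟨as, has, rfl⟩ := hx
    cases has with
    | @cons _ a _ as ha has =>
      rcases List.mem_cons.1 hy with rfl | hy
      · exact ⟨m * a :: as, List.Forall₂.cons (hm _ _ hmy _ ha) has, by simp [mul_assoc]⟩
      · obtain ⟨as', has', h'⟩ := ih hy ⟨as, has, rfl⟩
        refine ⟨a :: as', List.Forall₂.cons ha has', ?_⟩
        rw [List.prod_cons, List.prod_cons, ← h', ← mul_assoc, ← mul_assoc, hc _ _ _ hmy _ ha]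

lemma NF.of_mem_closure (F : Y → Set M) (h1 : ∀ y, (1 : M) ∈ F y)
    (hm : ∀ y, ∀ a ∈ F y, ∀ b ∈ F y, a * b ∈ F y)
    (hc : ∀ y y', ∀ a ∈ F y, ∀ b ∈ F y', a * b = b * a) (ys : List Y)
    {x : M} (hx : x ∈ Submonoid.closure (⋃ y ∈ ys, F y)) : NF F ys x := by
  induction hx using Submonoid.closure_induction_left with
  | one => exact NF.one F h1 ys
  | mul_left m hmem x _ ih =>
    simp only [Set.mem_iUnion] at hmem
    obtain ⟨y, hy, hmy⟩ := hmem
    exact NF.step F hm hc ys hy hmy ih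

lemma NF.isProdComm {G : Type u} [Group G] (F : Y → Set G)
    (h : ∀ y, ∀ a ∈ F y, IsProdComm 1 a) {ys : List Y} {x : G} (hx : NF F ys x) :
    IsProdComm ys.length x := by
  obtain ⟨as, has, rfl⟩ := hx
  induction has with
  | nil => simpa using isProdComm_zero
  | @cons y a ys as ha has ih =>
    rw [List.prod_cons, List.length_cons, add_comm]
    exact (h _ _ ha).mul ih

end normalForm

section central

variable {G : Type u} [Group G]

/-- If `⁅R, G⁆` centralises the normal subgroup `R`, every element of `⁅R, G⁆` is a product of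
`k` commutators, `k` the number of generators of `G`. -/
theorem isProdComm_of_mem_commutator_top (R : Subgroup G) [R.Normal] (ys : List G)
    (hgen : Subgroup.closure {y | y ∈ ys} = ⊤)
    (hcen : ∀ r ∈ R, ∀ g : G, ∀ s ∈ R, ⁅r, g⁆ * s = s * ⁅r, g⁆) {z : G}
    (hz : z ∈ ⁅R, (⊤ : Subgroup G)⁆) : IsProdComm ys.length z := by
  have hRn : R.Normal := inferInstance
  have hmemR : ∀ r ∈ R, ∀ g : G, ⁅r, g⁆ ∈ R := by
    intro r hr g
    rw [commutatorElement_def, mul_assoc, mul_assoc]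
    refine R.mul_mem hr ?_
    rw [← mul_assoc]
    exact hRn.conj_mem _ (R.inv_mem hr) g
  set F : G → Set G := fun y => {x | ∃ n ∈ R, x = ⁅n, y⁆} with hF
  have hmul : ∀ (g : G), ∀ a ∈ R, ∀ b ∈ R, ⁅a, g⁆ * ⁅b, g⁆ = ⁅b * a, g⁆ := by
    intro g a ha b hb
    have h := hcen a ha g b hb
    have : ⁅b * a, g⁆ = b * ⁅a, g⁆ * b⁻¹ * ⁅b, g⁆ := by
      simp only [commutatorElement_def]; group
    rw [this, ← h]
    group
  have hinv : ∀ g : G, ∀ r ∈ R, ⁅r, g⁻¹⁆ = ⁅g⁻¹ * r⁻¹ * g, g⁆ := by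
    intro g r hr
    have h := hcen r hr g⁻¹ r hr
    have h2 : ⁅g⁻¹ * r⁻¹ * g, g⁆ = r⁻¹ * ⁅r, g⁻¹⁆ * r := by
      simp only [commutatorElement_def]; group
    rw [h2, mul_assoc, h]
    group
  have hall : ∀ g : G, ∀ r ∈ R, ⁅r, g⁆ ∈ Submonoid.closure (⋃ y ∈ ys, F y) := by
    intro g
    have hg : g ∈ Subgroup.closure {y | y ∈ ys} := hgen ▸ Subgroup.mem_top g
    induction hg using Subgroup.closure_induction with
    | mem x hx =>
      intro r hr
      refine Submonoid.subset_closure ?_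
      simp only [Set.mem_iUnion]
      exact ⟨x, hx, r, hr, rfl⟩
    | one => intro r _; simp
    | mul g h _ _ hg hh =>
      intro r hr
      have : ⁅r, g * h⁆ = ⁅r, h⁆ * ⁅h * r * h⁻¹, g⁆ := by
        simp only [commutatorElement_def]; group
      rw [this]
      exact Submonoid.mul_mem _ (hh r hr) (hg _ (hRn.conj_mem _ hr h))
    | inv g _ hg =>
      intro r hr
      rw [hinv g r hr]
      refine hg _ ?_
      simpa using hRn.conj_mem _ (R.inv_mem hr) g⁻¹
  have hcl : z ∈ Submonoid.closure (⋃ y ∈ ys, F y) := by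
    rw [Subgroup.commutator_def] at hz
    have : z ∈ Submonoid.closure (⋃ y ∈ ys, F y) ∧ z⁻¹ ∈ Submonoid.closure (⋃ y ∈ ys, F y) := by
      induction hz using Subgroup.closure_induction with
      | mem x hx =>
        obtain ⟨r, hr, g, -, rfl⟩ := hx
        refine ⟨hall g r hr, ?_⟩
        have : ⁅r, g⁆⁻¹ = ⁅r⁻¹, g⁆ := by
          rw [inv_eq_iff_mul_eq_one, hmul g r hr _ (R.inv_mem hr)]
          simp
        rw [this]
        exact hall g _ (R.inv_mem hr)
      | one => simp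
      | mul x y _ _ hx hy =>
        exact ⟨mul_mem hx.1 hy.1, by rw [mul_inv_rev]; exact mul_mem hy.2 hx.2⟩
      | inv x _ hx => exact ⟨hx.2, by rw [inv_inv]; exact hx.1⟩
    exact this.1
  refine NF.isProdComm F ?_ (NF.of_mem_closure F ?_ ?_ ?_ ys hcl)
  · rintro y a ⟨n, -, rfl⟩
    exact isProdComm_comm _ _
  · intro y
    exact ⟨1, R.one_mem, by simp⟩
  · rintro y a ⟨n, hn, rfl⟩ b ⟨m, hm, rfl⟩
    exact ⟨m * n, R.mul_mem hm hn, hmul y n hn m hm⟩
  · rintro y y' a ⟨n, hn, rfl⟩ b ⟨m, hm, rfl⟩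
    exact hcen n hn y _ (hmemR m hm y')

end central

section bilinear

variable {G : Type u} [Group G] (R : Subgroup G)
  (hc : ∀ r ∈ R, ∀ s ∈ R, ⁅r, s⁆ ∈ Subgroup.center G)

/-- The centre as a commutative group. -/
@[reducible] def centerCommGroup (G : Type u) [Group G] : CommGroup (Subgroup.center G) :=
  { (inferInstance : Group (Subgroup.center G)) with
    mul_comm := fun a b => Subtype.ext (b.2.comm a).symm }

attribute [local instance] centerCommGroup

/-- The commutator pairing with values in the centre. -/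
def om (r s : R) : Additive (Subgroup.center G) :=
  Additive.ofMul ⟨⁅(r : G), (s : G)⁆, hc r r.2 s s.2⟩

include hc in
lemma om_def (r s : R) : ((Additive.toMul (om R hc r s) : Subgroup.center G) : G) =
    ⁅(r : G), (s : G)⁆ := rfl

lemma om_ext {x y : Additive (Subgroup.center G)}
    (h : ((Additive.toMul x : Subgroup.center G) : G) = (Additive.toMul y : Subgroup.center G)) :
    x = y := by
  apply Additive.toMul.injective
  exact Subtype.ext h

lemma comm_of_center {z : G} (hz : z ∈ Subgroup.center G) (g : G) : g * z = z * g :=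
  Subgroup.mem_center_iff.1 hz g

lemma om_mul_left (r s t : R) : om R hc (r * s) t = om R hc r t + om R hc s t := by
  apply om_ext
  rw [om_def]
  change _ = ⁅(r : G), (t : G)⁆ * ⁅(s : G), (t : G)⁆
  have h : ⁅((r * s : R) : G), (t : G)⁆ = (r : G) * ⁅(s : G), (t : G)⁆ * (r : G)⁻¹ *
      ⁅(r : G), (t : G)⁆ := by
    simp only [commutatorElement_def, Subgroup.coe_mul]; group
  rw [h, comm_of_center (hc s s.2 t t.2) r, mul_assoc _ (r : G), mul_inv_cancel, mul_one,
    comm_of_center (hc r r.2 t t.2)]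

lemma om_swap (r s : R) : om R hc r s = - om R hc s r := by
  apply om_ext
  rw [om_def]
  change _ = ⁅(s : G), (r : G)⁆⁻¹
  rw [commutatorElement_inv]

lemma om_mul_right (r s t : R) : om R hc r (s * t) = om R hc r s + om R hc r t := by
  rw [om_swap, om_mul_left, om_swap R hc s r, om_swap R hc t r]
  abel

lemma om_one_left (s : R) : om R hc 1 s = 0 := by
  have := om_mul_left R hc 1 1 s
  rw [mul_one] at this
  simpa using this

lemma om_one_right (s : R) : om R hc s 1 = 0 := by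
  rw [om_swap, om_one_left]; simp

lemma om_inv_left (r s : R) : om R hc r⁻¹ s = - om R hc r s := by
  have := om_mul_left R hc r⁻¹ r s
  rw [inv_mul_cancel, om_one_left] at this
  exact eq_neg_of_add_eq_zero_left this.symm

lemma om_inv_right (r s : R) : om R hc r s⁻¹ = - om R hc r s := by
  rw [om_swap, om_inv_left, om_swap R hc s r, neg_neg]

/-- Conjugation as a map on a normal subgroup. -/
def cj [hR : R.Normal] (g : G) (r : R) : R := ⟨g * r * g⁻¹, hR.conj_mem _ r.2 g⟩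

lemma om_cj [hR : R.Normal] (g : G) (r s : R) : om R hc (cj R g r) (cj R g s) = om R hc r s := by
  apply om_ext
  rw [om_def, om_def]
  have : ⁅((cj R g r : R) : G), ((cj R g s : R) : G)⁆ = g * ⁅(r : G), (s : G)⁆ * g⁻¹ := by
    simp only [commutatorElement_def, cj]; group
  rw [this, comm_of_center (hc r r.2 s s.2) g]
  group

lemma om_mul_central (z r s : R) (hz : (z : G) ∈ Subgroup.center G) : om R hc (z * r) s =
    om R hc r s := by
  rw [om_mul_left]
  have : om R hc z s = 0 := by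
    apply om_ext
    rw [om_def]
    change _ = (1 : G)
    rw [commutatorElement_eq_one_iff_mul_comm, comm_of_center hz]
  rw [this, zero_add]

end bilinear

section square

attribute [local instance] centerCommGroup

variable {G : Type u} [Group G]

/-- The operator `S ↦ z² S`. -/
def Lsq (z : G) : Function.End G := fun S => z ^ 2 * S

/-- The operator `S ↦ (n⁻¹ · g n g⁻¹) S (g n g⁻¹ · n⁻¹)`. -/
def E (n g : G) : Function.End G :=
  fun S => (n⁻¹ * (g * n * g⁻¹)) * S * ((g * n * g⁻¹) * n⁻¹)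

lemma E_apply (n g S : G) : E n g S = (n⁻¹ * (g * n * g⁻¹)) * S * ((g * n * g⁻¹) * n⁻¹) := rfl

lemma E_one_right (n : G) : E n 1 = 1 := by
  funext S
  change _ = S
  rw [E_apply]; group

lemma E_one_left (g : G) : E 1 g = 1 := by
  funext S
  change _ = S
  rw [E_apply]; group

lemma E_mul_right (l g h : G) : E l (g * h) = E l h * E (h * l * h⁻¹) g := by
  funext S
  change _ = E l h (E (h * l * h⁻¹) g S)
  rw [E_apply, E_apply, E_apply]; group

variable (R : Subgroup G) (hc : ∀ r ∈ R, ∀ s ∈ R, ⁅r, s⁆ ∈ Subgroup.center G)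

include hc in
lemma mul_eq_om (x y : R) : (x : G) * (y : G) =
    ((Additive.toMul (om R hc x y) : Subgroup.center G) : G) * ((y : G) * (x : G)) := by
  rw [om_def, commutatorElement_def]; group

lemma toMul_add (x y : Additive (Subgroup.center G)) :
    ((Additive.toMul (x + y) : Subgroup.center G) : G) =
      ((Additive.toMul x : Subgroup.center G) : G) *
        ((Additive.toMul y : Subgroup.center G) : G) := rfl

lemma toMul_zero :
    ((Additive.toMul (0 : Additive (Subgroup.center G)) : Subgroup.center G) : G) = 1 := rfl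

lemma central_pull (x y : Additive (Subgroup.center G)) (h : x + y = 0) (a T b : G) :
    (((Additive.toMul x : Subgroup.center G) : G) * a) * T *
      (((Additive.toMul y : Subgroup.center G) : G) * b) = a * T * b := by
  have h1 : ((Additive.toMul x : Subgroup.center G) : G) *
        ((Additive.toMul y : Subgroup.center G) : G) = 1 := by
    rw [← toMul_add, h, toMul_zero]
  set p : G := ((Additive.toMul x : Subgroup.center G) : G)
  set q : G := ((Additive.toMul y : Subgroup.center G) : G) with hq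
  have hqc : ∀ g : G, g * q = q * g := fun g =>
    comm_of_center (Additive.toMul y : Subgroup.center G).2 g
  calc p * a * T * (q * b) = p * (a * T * q) * b := by group
    _ = p * (q * (a * T)) * b := by rw [hqc]
    _ = (p * q) * (a * T * b) := by group
    _ = a * T * b := by rw [h1, one_mul]

include hc

lemma E_comm [R.Normal] (n₁ n₂ : R) (g₁ g₂ : G) :
    E (n₁ : G) g₁ * E (n₂ : G) g₂ = E (n₂ : G) g₂ * E (n₁ : G) g₁ := by
  funext S
  change E (n₁ : G) g₁ (E (n₂ : G) g₂ S) = E (n₂ : G) g₂ (E (n₁ : G) g₁ S)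
  rw [E_apply, E_apply, E_apply, E_apply]
  set m₁ := cj R g₁ n₁ with hm₁
  set m₂ := cj R g₂ n₂ with hm₂
  have e₁ : g₁ * (n₁ : G) * g₁⁻¹ = (m₁ : G) := rfl
  have e₂ : g₂ * (n₂ : G) * g₂⁻¹ = (m₂ : G) := rfl
  rw [e₁, e₂]
  have h1 := mul_eq_om R hc (n₁⁻¹ * m₁) (n₂⁻¹ * m₂)
  have h2 := mul_eq_om R hc (m₂ * n₂⁻¹) (m₁ * n₁⁻¹)
  have h3 : om R hc (n₁⁻¹ * m₁) (n₂⁻¹ * m₂) + om R hc (m₂ * n₂⁻¹) (m₁ * n₁⁻¹) = 0 := by
    rw [om_swap R hc (m₂ * n₂⁻¹)]
    simp only [om_mul_left, om_mul_right, om_inv_left, om_inv_right]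
    abel
  have h4 := central_pull _ _ h3 (((n₂⁻¹ * m₂ : R) : G) * ((n₁⁻¹ * m₁ : R) : G)) S
    (((m₁ * n₁⁻¹ : R) : G) * ((m₂ * n₂⁻¹ : R) : G))
  rw [← h1, ← h2] at h4
  simp only [Subgroup.coe_mul, Subgroup.coe_inv] at h4
  calc _ = (n₁ : G)⁻¹ * m₁ * ((n₂ : G)⁻¹ * m₂) * S * (m₂ * (n₂ : G)⁻¹ * (m₁ * (n₁ : G)⁻¹)) := by
        group
    _ = _ := h4
    _ = _ := by group

lemma E_merge [R.Normal] (n₁ n₂ : R) (g : G) :
    E (n₁ : G) g * E (n₂ : G) g = E ((n₁ : G) * n₂) g := by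
  symm
  funext S
  change _ = E (n₁ : G) g (E (n₂ : G) g S)
  rw [E_apply, E_apply, E_apply]
  set m₁ := cj R g n₁ with hm₁
  set m₂ := cj R g n₂ with hm₂
  have e₁ : g * (n₁ : G) * g⁻¹ = (m₁ : G) := rfl
  have e₂ : g * (n₂ : G) * g⁻¹ = (m₂ : G) := rfl
  have e₃ : g * ((n₁ : G) * n₂) * g⁻¹ = (m₁ : G) * m₂ := by
    rw [← e₁, ← e₂]; group
  rw [e₁, e₂, e₃]
  have h1 := mul_eq_om R hc (n₂⁻¹) (n₁⁻¹ * m₁)
  have h2 := mul_eq_om R hc m₁ (m₂ * n₂⁻¹)
  have h3 : om R hc (n₂⁻¹) (n₁⁻¹ * m₁) + om R hc m₁ (m₂ * n₂⁻¹) = 0 := by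
    have h5 : om R hc m₁ m₂ = om R hc n₁ n₂ := om_cj R hc g n₁ n₂
    simp only [om_mul_left, om_mul_right, om_inv_left, om_inv_right]
    rw [h5, om_swap R hc n₂ n₁, om_swap R hc n₂ m₁]
    abel
  have h4 := central_pull _ _ h3 ((((n₁⁻¹ * m₁ : R) : G) * ((n₂⁻¹ : R) : G)) * m₂) S
    ((((m₂ * n₂⁻¹ : R) : G) * (m₁ : G)) * (n₁ : G)⁻¹)
  rw [← mul_assoc _ (((n₁⁻¹ * m₁ : R) : G) * ((n₂⁻¹ : R) : G)) (m₂ : G), ← h1,
    ← mul_assoc _ (((m₂ * n₂⁻¹ : R) : G) * (m₁ : G)) (n₁ : G)⁻¹, ← h2] at h4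
  simp only [Subgroup.coe_mul, Subgroup.coe_inv] at h4
  calc _ = (n₂ : G)⁻¹ * ((n₁ : G)⁻¹ * m₁) * m₂ * S *
        (m₁ * (m₂ * (n₂ : G)⁻¹) * (n₁ : G)⁻¹) := by group
    _ = _ := h4
    _ = _ := by group

lemma E_inv_right [R.Normal] (n : R) (g : G) :
    E (n : G) g⁻¹ = E (g⁻¹ * (n : G)⁻¹ * g) g := by
  funext S
  rw [E_apply, E_apply]
  set q := cj R g⁻¹ n with hq
  have e₁ : g⁻¹ * (n : G) * g⁻¹⁻¹ = (q : G) := rfl
  have e₂ : (g⁻¹ * (n : G)⁻¹ * g)⁻¹ = (q : G) := by rw [← e₁]; group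
  have e₃ : g * (g⁻¹ * (n : G)⁻¹ * g) * g⁻¹ = (n : G)⁻¹ := by group
  rw [e₁, e₂, e₃]
  have h1 := mul_eq_om R hc (n⁻¹) q
  have h2 := mul_eq_om R hc q (n⁻¹)
  have h3 : om R hc (n⁻¹) q + om R hc q (n⁻¹) = 0 := by
    rw [om_swap R hc q]; abel
  have h4 := central_pull _ _ h3 ((q : G) * ((n⁻¹ : R) : G)) S (((n⁻¹ : R) : G) * (q : G))
  rw [← h1, ← h2] at h4
  exact h4

omit hc in
lemma E_eq_comm (n g S : G) : E n g S = ⁅n⁻¹, g⁆ * S * ⁅g, n⁆ := by
  rw [E_apply, commutatorElement_def, commutatorElement_def]; group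

omit hc in
lemma NF.isProdComm_apply (F : G → Set (Function.End G))
    (h : ∀ y, ∀ f ∈ F y, ∃ n : G, f = E n y) {ys : List G} {f : Function.End G}
    (hf : NF F ys f) {m : ℕ} {S : G} (hS : IsProdComm m S) :
    IsProdComm (m + 2 * ys.length) (f S) := by
  obtain ⟨as, has, rfl⟩ := hf
  induction has with
  | nil => exact hS
  | @cons y a ys as ha has ih =>
    obtain ⟨n, rfl⟩ := h _ _ ha
    rw [List.prod_cons]
    change IsProdComm _ (E n y (as.prod S))
    rw [E_eq_comm, List.length_cons]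
    have := ((isProdComm_comm n⁻¹ y).mul ih).mul (isProdComm_comm y n)
    refine this.mono ?_
    omega

theorem isProdComm_sq [hRn : R.Normal] (ys : List G)
    (hgen : Subgroup.closure {y | y ∈ ys} = ⊤) {z : G} (hz : z ∈ ⁅R, R⁆) :
    IsProdComm (2 * ys.length) (z ^ 2) := by
  set F : G → Set (Function.End G) := fun y => {f | ∃ n ∈ R, f = E n y} with hF
  set N : Submonoid (Function.End G) := Submonoid.closure (⋃ y ∈ ys, F y) with hN
  have hall : ∀ g : G, ∀ l ∈ R, E l g ∈ N := by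
    intro g
    have hg : g ∈ Subgroup.closure {y | y ∈ ys} := hgen ▸ Subgroup.mem_top g
    induction hg using Subgroup.closure_induction with
    | mem x hx =>
      intro r hr
      refine Submonoid.subset_closure ?_
      simp only [Set.mem_iUnion]
      exact ⟨x, hx, r, hr, rfl⟩
    | one => intro r _; rw [E_one_right]; exact N.one_mem
    | mul g h _ _ hg hh =>
      intro r hr
      rw [E_mul_right]
      exact Submonoid.mul_mem _ (hh r hr) (hg _ (hRn.conj_mem _ hr h))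
    | inv g _ hg =>
      intro r hr
      rw [E_inv_right R hc ⟨r, hr⟩ g]
      refine hg _ ?_
      simpa using hRn.conj_mem _ (R.inv_mem hr) g⁻¹
  have hsq : ∀ r ∈ R, ∀ l ∈ R, Lsq ⁅r, l⁆ = E l r := by
    intro r hr l hl
    funext S
    change ⁅r, l⁆ ^ 2 * S = _
    rw [E_eq_comm]
    have h1 : ⁅l⁻¹, r⁆ = ⁅r, l⁆ := by
      have : om R hc (⟨l, hl⟩⁻¹) ⟨r, hr⟩ = om R hc ⟨r, hr⟩ ⟨l, hl⟩ := by
        rw [om_inv_left, om_swap R hc ⟨l, hl⟩, neg_neg]
      have h2 := congrArg (fun x => ((Additive.toMul x : Subgroup.center G) : G)) this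
      simpa [om_def] using h2
    rw [h1, mul_assoc, comm_of_center (hc r hr l hl) S, pow_two, mul_assoc]
  have hcl : z ∈ Subgroup.center G ∧ Lsq z ∈ N ∧ Lsq z⁻¹ ∈ N := by
    rw [Subgroup.commutator_def] at hz
    induction hz using Subgroup.closure_induction with
    | mem x hx =>
      obtain ⟨r, hr, l, hl, rfl⟩ := hx
      refine ⟨hc r hr l hl, ?_, ?_⟩
      · rw [hsq r hr l hl]
        exact hall r l hl
      · rw [commutatorElement_inv, hsq l hl r hr]
        exact hall l r hr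
    | one =>
      refine ⟨Subgroup.one_mem _, ?_, ?_⟩
      · have : Lsq (1 : G) = (1 : Function.End G) := by
          funext S; change (1 : G) ^ 2 * S = S; simp
        rw [this]; exact N.one_mem
      · have : Lsq (1 : G)⁻¹ = (1 : Function.End G) := by
          funext S; change (1 : G)⁻¹ ^ 2 * S = S; simp
        rw [this]; exact N.one_mem
    | mul x y _ _ hx hy =>
      obtain ⟨hx1, hx2, hx3⟩ := hx
      obtain ⟨hy1, hy2, hy3⟩ := hy
      refine ⟨Subgroup.mul_mem _ hx1 hy1, ?_, ?_⟩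
      · have : Lsq (x * y) = Lsq x * Lsq y := by
          funext S
          change (x * y) ^ 2 * S = x ^ 2 * (y ^ 2 * S)
          have : (x * y) ^ 2 = x ^ 2 * y ^ 2 := (show Commute x y from
            (comm_of_center hy1 x)).mul_pow 2
          rw [this, mul_assoc]
        rw [this]
        exact N.mul_mem hx2 hy2
      · have : Lsq (x * y)⁻¹ = Lsq x⁻¹ * Lsq y⁻¹ := by
          funext S
          change (x * y)⁻¹ ^ 2 * S = x⁻¹ ^ 2 * (y⁻¹ ^ 2 * S)
          have : (x * y)⁻¹ ^ 2 = x⁻¹ ^ 2 * y⁻¹ ^ 2 := by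
            have h := (show Commute x y from (comm_of_center hy1 x))
            rw [h.mul_inv, (h.inv_inv).mul_pow 2]
          rw [this, mul_assoc]
        rw [this]
        exact N.mul_mem hx3 hy3
    | inv x _ hx =>
      exact ⟨Subgroup.inv_mem _ hx.1, hx.2.2, by simpa using hx.2.1⟩
  have hnf := NF.of_mem_closure F (fun y => ⟨1, R.one_mem, (E_one_left y).symm⟩)
    (by
      rintro y a ⟨n, hn, rfl⟩ b ⟨m, hm, rfl⟩
      exact ⟨n * m, R.mul_mem hn hm, E_merge R hc ⟨n, hn⟩ ⟨m, hm⟩ y⟩)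
    (by
      rintro y y' a ⟨n, hn, rfl⟩ b ⟨m, hm, rfl⟩
      exact E_comm R hc ⟨n, hn⟩ ⟨m, hm⟩ y y') ys hcl.2.1
  have := NF.isProdComm_apply F (fun y f hf => by
    obtain ⟨n, -, h⟩ := hf
    exact ⟨n, h⟩) hnf (isProdComm_zero (G := G))
  have h2 : (Lsq z) 1 = z ^ 2 := by
    change z ^ 2 * 1 = z ^ 2
    rw [mul_one]
  rw [h2, zero_add] at this
  exact this

/-- If `R` is the normal closure of `cs` and `⁅R, R⁆` is central, every element of `⁅R, R⁆` is a
product of `cs.length` commutators. -/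
theorem isProdComm_of_normalClosure [hRn : R.Normal] (cs : List G)
    (hcs : R = Subgroup.normalClosure {c | c ∈ cs}) {z : G} (hz : z ∈ ⁅R, R⁆) :
    IsProdComm cs.length z := by
  set F : G → Set G := fun y => {x | ∃ n ∈ R, x = ⁅n, y⁆ ∧ y ∈ R} ∪ {1} with hF
  set N : Submonoid G := Submonoid.closure (⋃ y ∈ cs, F y) with hN
  have hmulr : ∀ r ∈ R, ∀ s ∈ R, ∀ t ∈ R, ⁅r, s * t⁆ = ⁅r, s⁆ * ⁅r, t⁆ := by
    intro r hr s hs t ht
    have h := om_mul_right R hc ⟨r, hr⟩ ⟨s, hs⟩ ⟨t, ht⟩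
    exact congrArg (fun x => ((Additive.toMul x : Subgroup.center G) : G)) h
  have hmull : ∀ r ∈ R, ∀ s ∈ R, ∀ t ∈ R, ⁅r * s, t⁆ = ⁅r, t⁆ * ⁅s, t⁆ := by
    intro r hr s hs t ht
    have h := om_mul_left R hc ⟨r, hr⟩ ⟨s, hs⟩ ⟨t, ht⟩
    exact congrArg (fun x => ((Additive.toMul x : Subgroup.center G) : G)) h
  have hinvr : ∀ r ∈ R, ∀ s ∈ R, ⁅r, s⁻¹⁆ = ⁅r⁻¹, s⁆ := by
    intro r hr s hs
    have h : om R hc ⟨r, hr⟩ ⟨s, hs⟩⁻¹ = om R hc ⟨r, hr⟩⁻¹ ⟨s, hs⟩ := by
      rw [om_inv_left, om_inv_right]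
    exact congrArg (fun x => ((Additive.toMul x : Subgroup.center G) : G)) h
  have hinvl : ∀ r ∈ R, ∀ s ∈ R, ⁅r, s⁆⁻¹ = ⁅r⁻¹, s⁆ := by
    intro r hr s hs
    have h := om_inv_left R hc ⟨r, hr⟩ ⟨s, hs⟩
    exact (congrArg (fun x => ((Additive.toMul x : Subgroup.center G) : G)) h).symm
  have hcj : ∀ r ∈ R, ∀ s ∈ R, ∀ g : G, ⁅r, g * s * g⁻¹⁆ = ⁅g⁻¹ * r * g, s⁆ := by
    intro r hr s hs g
    have h : ⁅r, g * s * g⁻¹⁆ = g * ⁅g⁻¹ * r * g, s⁆ * g⁻¹ := by
      simp only [commutatorElement_def]; group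
    have hr' : g⁻¹ * r * g ∈ R := by simpa using hRn.conj_mem _ hr g⁻¹
    rw [h, comm_of_center (hc _ hr' _ hs) g]
    group
  have hcR : ∀ c ∈ cs, c ∈ R := by
    intro c hc'
    rw [hcs]
    exact Subgroup.subset_normalClosure hc'
  have hall : ∀ s ∈ R, ∀ r ∈ R, ⁅r, s⁆ ∈ N := by
    intro s hs
    have hs' : s ∈ Subgroup.normalClosure {c | c ∈ cs} := by rwa [← hcs]
    have key : s ∈ R ∧ ∀ r ∈ R, ⁅r, s⁆ ∈ N := by
      clear hs
      unfold Subgroup.normalClosure at hs'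
      induction hs' using Subgroup.closure_induction with
      | mem x hx =>
        rw [Group.mem_conjugatesOfSet_iff] at hx
        obtain ⟨c, hc', hx⟩ := hx
        obtain ⟨g, rfl⟩ := isConj_iff.1 hx
        refine ⟨hRn.conj_mem _ (hcR c hc') g, fun r hr => ?_⟩
        rw [hcj r hr c (hcR c hc') g]
        refine Submonoid.subset_closure ?_
        simp only [Set.mem_iUnion]
        refine ⟨c, hc', Or.inl ⟨g⁻¹ * r * g, ?_, rfl, hcR c hc'⟩⟩
        simpa using hRn.conj_mem _ hr g⁻¹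
      | one => exact ⟨R.one_mem, fun r _ => by simp⟩
      | mul s t _ _ hs ht =>
        refine ⟨R.mul_mem hs.1 ht.1, fun r hr => ?_⟩
        rw [hmulr r hr s hs.1 t ht.1]
        exact N.mul_mem (hs.2 r hr) (ht.2 r hr)
      | inv s _ hs =>
        refine ⟨R.inv_mem hs.1, fun r hr => ?_⟩
        rw [hinvr r hr s hs.1]
        exact hs.2 _ (R.inv_mem hr)
    exact key.2
  have hcl : z ∈ N ∧ z⁻¹ ∈ N := by
    rw [Subgroup.commutator_def] at hz
    induction hz using Subgroup.closure_induction with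
    | mem x hx =>
      obtain ⟨r, hr, s, hs, rfl⟩ := hx
      refine ⟨hall s hs r hr, ?_⟩
      rw [hinvl r hr s hs]
      exact hall s hs _ (R.inv_mem hr)
    | one => simp
    | mul x y _ _ hx hy =>
      exact ⟨mul_mem hx.1 hy.1, by rw [mul_inv_rev]; exact mul_mem hy.2 hx.2⟩
    | inv x _ hx => exact ⟨hx.2, by rw [inv_inv]; exact hx.1⟩
  refine NF.isProdComm F ?_ (NF.of_mem_closure F ?_ ?_ ?_ cs hcl.1)
  · rintro y a (⟨n, -, rfl, -⟩ | ha)
    · exact isProdComm_comm _ _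
    · rw [Set.mem_singleton_iff.1 ha]; exact IsProdComm.one 1
  · intro y
    exact Or.inr rfl
  · rintro y a (⟨n, hn, rfl, hy⟩ | ha) b (⟨m, hm, rfl, hy'⟩ | hb)
    · exact Or.inl ⟨n * m, R.mul_mem hn hm, (hmull n hn m hm y hy).symm, hy⟩
    · rw [Set.mem_singleton_iff.1 hb, mul_one]; exact Or.inl ⟨n, hn, rfl, hy⟩
    · rw [Set.mem_singleton_iff.1 ha, one_mul]; exact Or.inl ⟨m, hm, rfl, hy'⟩
    · rw [Set.mem_singleton_iff.1 ha, Set.mem_singleton_iff.1 hb, one_mul]; exact Or.inr rfl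
  · rintro y y' a (⟨n, hn, rfl, hy⟩ | ha) b hb
    · exact (comm_of_center (hc n hn y hy) b).symm
    · rw [Set.mem_singleton_iff.1 ha]; simp

end square

end Pool.Agent.Helper26.CW
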