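import Mathlib

/-!
# Cyclic algebras given by generators and relations, and a splitting criterion
-/

namespace Pool.Agent.Helper26

open Polynomial

universe u

variable {F : Type u} [Field F]

/-- The defining relations `u ^ ℓ = a`, `v ^ ℓ = b`, `u v = ζ v u` of the cyclic algebra
`(a, b)_ζ`, on the free algebra with generators `u = ι 0` and `v = ι 1`. -/
inductive CyclicRel (ℓ : ℕ) (ζ a b : F) :
    FreeAlgebra F (Fin 2) → FreeAlgebra F (Fin 2) → Prop
  | pow_u : CyclicRel ℓ ζ a b (FreeAlgebra.ι F (0 : Fin 2) ^ ℓ) (algebraMap F _ a)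
  | pow_v : CyclicRel ℓ ζ a b (FreeAlgebra.ι F (1 : Fin 2) ^ ℓ) (algebraMap F _ b)
  | comm : CyclicRel ℓ ζ a b (FreeAlgebra.ι F (0 : Fin 2) * FreeAlgebra.ι F (1 : Fin 2))
      (algebraMap F _ ζ * (FreeAlgebra.ι F (1 : Fin 2) * FreeAlgebra.ι F (0 : Fin 2)))

/-- The cyclic algebra `(a, b)_ζ` over `F`: the `F`-algebra generated by `u, v` subject to
`u ^ ℓ = a`, `v ^ ℓ = b`, `u v = ζ v u`. -/
abbrev CyclicAlgebra (ℓ : ℕ) (ζ a b : F) : Type u := RingQuot (CyclicRel ℓ ζ a b)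

/-- The cyclic algebra `(a, b)_ζ` is split: it is isomorphic to the matrix algebra `M_ℓ(F)`. -/
def IsSplit (ℓ : ℕ) (ζ a b : F) : Prop :=
  Nonempty (CyclicAlgebra ℓ ζ a b ≃ₐ[F] Matrix (Fin ℓ) (Fin ℓ) F)

section Criterion

variable (ℓ : ℕ) (ζ a b : F)

/-- The generator `u`. -/
noncomputable def genU : CyclicAlgebra ℓ ζ a b :=
  RingQuot.mkAlgHom F (CyclicRel ℓ ζ a b) (FreeAlgebra.ι F (0 : Fin 2))

/-- The generator `v`. -/
noncomputable def genV : CyclicAlgebra ℓ ζ a b :=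
  RingQuot.mkAlgHom F (CyclicRel ℓ ζ a b) (FreeAlgebra.ι F (1 : Fin 2))

lemma genU_pow : genU ℓ ζ a b ^ ℓ = algebraMap F _ a := by
  have := RingQuot.mkAlgHom_rel F (CyclicRel.pow_u (ℓ := ℓ) (ζ := ζ) (a := a) (b := b))
  rw [map_pow, AlgHom.commutes] at this
  exact this

lemma genV_pow : genV ℓ ζ a b ^ ℓ = algebraMap F _ b := by
  have := RingQuot.mkAlgHom_rel F (CyclicRel.pow_v (ℓ := ℓ) (ζ := ζ) (a := a) (b := b))
  rw [map_pow, AlgHom.commutes] at this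
  exact this

lemma genU_mul_genV : genU ℓ ζ a b * genV ℓ ζ a b = ζ • (genV ℓ ζ a b * genU ℓ ζ a b) := by
  have := RingQuot.mkAlgHom_rel F (CyclicRel.comm (ℓ := ℓ) (ζ := ζ) (a := a) (b := b))
  rw [map_mul, map_mul, map_mul, AlgHom.commutes] at this
  rw [Algebra.smul_def]
  exact this

lemma genU_mul_genV_pow (j : ℕ) :
    genU ℓ ζ a b * genV ℓ ζ a b ^ j = ζ ^ j • (genV ℓ ζ a b ^ j * genU ℓ ζ a b) := by
  induction j with
  | zero => simp
  | succ j ih =>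
    rw [pow_succ, ← mul_assoc, ih, smul_mul_assoc, mul_assoc, genU_mul_genV, mul_smul_comm,
      smul_smul, ← mul_assoc, ← pow_succ, ← pow_succ]

variable {ℓ}

/-- The monomials `v ^ j u ^ i` with `i, j < ℓ` span the cyclic algebra. -/
lemma span_monomials (hℓ : 0 < ℓ) :
    Submodule.span F (Set.range fun p : Fin ℓ × Fin ℓ =>
      genV ℓ ζ a b ^ (p.1 : ℕ) * genU ℓ ζ a b ^ (p.2 : ℕ)) = ⊤ := by
  set S := Submodule.span F (Set.range fun p : Fin ℓ × Fin ℓ =>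
      genV ℓ ζ a b ^ (p.1 : ℕ) * genU ℓ ζ a b ^ (p.2 : ℕ)) with hS
  have hmem : ∀ j i : ℕ, j < ℓ → i < ℓ → genV ℓ ζ a b ^ j * genU ℓ ζ a b ^ i ∈ S := by
    intro j i hj hi
    exact Submodule.subset_span ⟨(⟨j, hj⟩, ⟨i, hi⟩), rfl⟩
  have hu : ∀ s ∈ S, genU ℓ ζ a b * s ∈ S := by
    intro s hs
    induction hs using Submodule.span_induction with
    | mem x hx =>
      obtain ⟨⟨j, i⟩, rfl⟩ := hx
      dsimp only
      rw [← mul_assoc, genU_mul_genV_pow, smul_mul_assoc, mul_assoc, ← pow_succ']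
      apply Submodule.smul_mem
      rcases Nat.lt_or_ge (i.1 + 1) ℓ with h | h
      · exact hmem _ _ j.2 h
      · have h2 : (i : ℕ) + 1 = ℓ := le_antisymm i.2 h
        rw [h2, genU_pow, ← Algebra.commutes, ← Algebra.smul_def]
        apply Submodule.smul_mem
        simpa using hmem j 0 j.2 hℓ
    | zero => simp
    | add x y _ _ hx hy => rw [mul_add]; exact S.add_mem hx hy
    | smul c x _ hx => rw [mul_smul_comm]; exact S.smul_mem c hx
  have hv : ∀ s ∈ S, genV ℓ ζ a b * s ∈ S := by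
    intro s hs
    induction hs using Submodule.span_induction with
    | mem x hx =>
      obtain ⟨⟨j, i⟩, rfl⟩ := hx
      dsimp only
      rw [← mul_assoc, ← pow_succ']
      rcases Nat.lt_or_ge (j.1 + 1) ℓ with h | h
      · exact hmem _ _ h i.2
      · have h2 : (j : ℕ) + 1 = ℓ := le_antisymm j.2 h
        rw [h2, genV_pow, ← Algebra.smul_def]
        apply Submodule.smul_mem
        simpa using hmem 0 i hℓ i.2
    | zero => simp
    | add x y _ _ hx hy => rw [mul_add]; exact S.add_mem hx hy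
    | smul c x _ hx => rw [mul_smul_comm]; exact S.smul_mem c hx
  have hall : ∀ y : FreeAlgebra F (Fin 2), ∀ s ∈ S,
      RingQuot.mkAlgHom F (CyclicRel ℓ ζ a b) y * s ∈ S := by
    intro y
    induction y using FreeAlgebra.induction with
    | grade0 r =>
      intro s hs
      rw [AlgHom.commutes, ← Algebra.smul_def]
      exact S.smul_mem r hs
    | grade1 x =>
      intro s hs
      fin_cases x
      · exact hu s hs
      · exact hv s hs
    | mul x y hx hy =>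
      intro s hs
      rw [map_mul, mul_assoc]
      exact hx _ (hy s hs)
    | add x y hx hy =>
      intro s hs
      rw [map_add, add_mul]
      exact S.add_mem (hx s hs) (hy s hs)
  rw [eq_top_iff]
  intro x _
  obtain ⟨y, rfl⟩ := RingQuot.mkAlgHom_surjective F (CyclicRel ℓ ζ a b) x
  have h1 : (1 : CyclicAlgebra ℓ ζ a b) ∈ S := by simpa using hmem 0 0 hℓ hℓ
  simpa using hall y 1 h1

variable (ℓ)

/-- The Kummer algebra `F[x] / (x ^ ℓ - a)`. -/
abbrev Kum (a : F) : Type u := AdjoinRoot (X ^ ℓ - C a : F[X])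

variable {ℓ} {ζ a b}

lemma kum_root_pow : (AdjoinRoot.root (X ^ ℓ - C a : F[X])) ^ ℓ = algebraMap F (Kum ℓ a) a := by
  have h := AdjoinRoot.eval₂_root (X ^ ℓ - C a : F[X])
  rw [eval₂_sub, eval₂_pow, eval₂_X, eval₂_C] at h
  exact sub_eq_zero.mp h

/-- The automorphism `σ` of the Kummer algebra with `σ x = ζ⁻¹ x`. -/
noncomputable def kumSigma (ℓ : ℕ) (ζ a : F) (hζ : ζ ^ ℓ = 1) : Kum ℓ a →ₐ[F] Kum ℓ a :=
  AdjoinRoot.liftAlgHom (X ^ ℓ - C a : F[X]) (Algebra.ofId F _)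
    (ζ⁻¹ • AdjoinRoot.root (X ^ ℓ - C a : F[X])) (by
      rw [eval₂_sub, eval₂_pow, eval₂_X, eval₂_C, _root_.smul_pow, inv_pow, hζ, inv_one, one_smul,
        kum_root_pow]
      exact sub_self _)

lemma kumSigma_root (hζ : ζ ^ ℓ = 1) :
    kumSigma ℓ ζ a hζ (AdjoinRoot.root _) = ζ⁻¹ • AdjoinRoot.root (X ^ ℓ - C a : F[X]) := by
  rw [kumSigma, AdjoinRoot.liftAlgHom_root]

lemma kumSigma_iter_root (hζ : ζ ^ ℓ = 1) (j : ℕ) :
    (kumSigma ℓ ζ a hζ)^[j] (AdjoinRoot.root _) =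
      (ζ⁻¹) ^ j • AdjoinRoot.root (X ^ ℓ - C a : F[X]) := by
  induction j with
  | zero => simp
  | succ j ih =>
    rw [Function.iterate_succ_apply', ih, map_smul, kumSigma_root, smul_smul, ← pow_succ]

lemma kumSigma_pow_ell (hζ : ζ ^ ℓ = 1) : (kumSigma ℓ ζ a hζ) ^ ℓ = 1 := by
  apply AdjoinRoot.algHom_ext
  rw [AlgHom.coe_pow, kumSigma_iter_root, inv_pow, hζ, inv_one, one_smul]
  rfl

/-- The product `Π_{i < j} σ^i z`. -/
noncomputable def kumNorm (hζ : ζ ^ ℓ = 1) (z : Kum ℓ a) (j : ℕ) : Kum ℓ a :=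
  ∏ i ∈ Finset.range j, ((kumSigma ℓ ζ a hζ) ^ i) z

lemma kumNorm_succ' (hζ : ζ ^ ℓ = 1) (z : Kum ℓ a) (j : ℕ) :
    kumNorm hζ z (j + 1) = z * kumSigma ℓ ζ a hζ (kumNorm hζ z j) := by
  rw [kumNorm, Finset.prod_range_succ', kumNorm, map_prod, mul_comm, pow_zero]
  congr 1
  apply Finset.prod_congr rfl
  intro i _
  rw [pow_succ']
  rfl

/-- The `F`-linear endomorphism `y ↦ z σ(y)` of the Kummer algebra. -/
noncomputable def kumV (hζ : ζ ^ ℓ = 1) (z : Kum ℓ a) : Module.End F (Kum ℓ a) :=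
  LinearMap.mulLeft F z * (kumSigma ℓ ζ a hζ).toLinearMap

lemma kumV_apply (hζ : ζ ^ ℓ = 1) (z y : Kum ℓ a) :
    kumV hζ z y = z * kumSigma ℓ ζ a hζ y := rfl

lemma kumV_pow_apply (hζ : ζ ^ ℓ = 1) (z y : Kum ℓ a) (j : ℕ) :
    (kumV hζ z ^ j) y = kumNorm hζ z j * ((kumSigma ℓ ζ a hζ) ^ j) y := by
  induction j with
  | zero => simp [kumNorm]
  | succ j ih =>
    rw [pow_succ', Module.End.mul_apply, ih, kumV_apply, map_mul, kumNorm_succ', mul_assoc,
      pow_succ' (kumSigma ℓ ζ a hζ)]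
    rfl

/-- The homomorphism from the cyclic algebra to the endomorphism algebra of the Kummer
algebra attached to an element of norm `b`. -/
noncomputable def kumRep (hζ : ζ ^ ℓ = 1) (hζ0 : ζ ≠ 0) (z : Kum ℓ a)
    (hz : kumNorm hζ z ℓ = algebraMap F _ b) :
    CyclicAlgebra ℓ ζ a b →ₐ[F] Module.End F (Kum ℓ a) :=
  RingQuot.liftAlgHom F ⟨FreeAlgebra.lift F
    ![LinearMap.mulLeft F (AdjoinRoot.root (X ^ ℓ - C a : F[X])), kumV hζ z], by
      intro x y hxy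
      induction hxy with
      | pow_u =>
        rw [map_pow, FreeAlgebra.lift_ι_apply, AlgHom.commutes]
        simp only [Matrix.cons_val_zero]
        rw [LinearMap.pow_mulLeft, kum_root_pow]
        ext y
        simp [Algebra.smul_def]
      | pow_v =>
        rw [map_pow, FreeAlgebra.lift_ι_apply, AlgHom.commutes]
        simp only [Matrix.cons_val_one, Matrix.cons_val_fin_one]
        ext y
        rw [kumV_pow_apply, hz, kumSigma_pow_ell]
        simp [Algebra.smul_def]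
      | comm =>
        rw [map_mul, map_mul, map_mul, FreeAlgebra.lift_ι_apply, FreeAlgebra.lift_ι_apply,
          AlgHom.commutes]
        simp only [Matrix.cons_val_zero, Matrix.cons_val_one]
        ext y
        simp only [Module.End.mul_apply, LinearMap.mulLeft_apply, kumV_apply, map_mul,
          kumSigma_root, Module.algebraMap_end_apply]
        rw [smul_mul_assoc, mul_smul_comm, smul_smul, mul_inv_cancel₀ hζ0, one_smul]
        ring⟩

lemma kumRep_genU (hζ : ζ ^ ℓ = 1) (hζ0 : ζ ≠ 0) (z : Kum ℓ a)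
    (hz : kumNorm hζ z ℓ = algebraMap F _ b) :
    kumRep hζ hζ0 z hz (genU ℓ ζ a b) =
      LinearMap.mulLeft F (AdjoinRoot.root (X ^ ℓ - C a : F[X])) := by
  rw [kumRep, genU, RingQuot.liftAlgHom_mkAlgHom_apply, FreeAlgebra.lift_ι_apply]
  rfl

lemma kumRep_genV (hζ : ζ ^ ℓ = 1) (hζ0 : ζ ≠ 0) (z : Kum ℓ a)
    (hz : kumNorm hζ z ℓ = algebraMap F _ b) :
    kumRep hζ hζ0 z hz (genV ℓ ζ a b) = kumV hζ z := by
  rw [kumRep, genV, RingQuot.liftAlgHom_mkAlgHom_apply, FreeAlgebra.lift_ι_apply]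
  rfl

lemma kumRep_monomial (hζ : ζ ^ ℓ = 1) (hζ0 : ζ ≠ 0) (z : Kum ℓ a)
    (hz : kumNorm hζ z ℓ = algebraMap F _ b) (j i : ℕ) (y : Kum ℓ a) :
    kumRep hζ hζ0 z hz (genV ℓ ζ a b ^ j * genU ℓ ζ a b ^ i) y =
      kumNorm hζ z j * ((kumSigma ℓ ζ a hζ) ^ j)
        ((AdjoinRoot.root (X ^ ℓ - C a : F[X])) ^ i * y) := by
  rw [map_mul, map_pow, map_pow, kumRep_genU, kumRep_genV, Module.End.mul_apply,
    kumV_pow_apply, LinearMap.pow_mulLeft, LinearMap.mulLeft_apply]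

lemma kumNorm_isUnit (hζ : ζ ^ ℓ = 1) (z : Kum ℓ a) (hb : b ≠ 0)
    (hz : kumNorm hζ z ℓ = algebraMap F _ b) {j : ℕ} (hj : j ≤ ℓ) : IsUnit (kumNorm hζ z j) := by
  have h1 : kumNorm hζ z j ∣ kumNorm hζ z ℓ := by
    apply Finset.prod_dvd_prod_of_subset
    intro x hx
    simp only [Finset.mem_range] at hx ⊢
    omega
  apply isUnit_of_dvd_unit h1
  rw [hz]
  exact (IsUnit.mk0 b hb).map _

lemma kum_root_isUnit (hℓ : 0 < ℓ) (ha : a ≠ 0) :
    IsUnit (AdjoinRoot.root (X ^ ℓ - C a : F[X])) := by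
  have h : IsUnit ((AdjoinRoot.root (X ^ ℓ - C a : F[X])) ^ ℓ) := by
    rw [kum_root_pow]
    exact (IsUnit.mk0 a ha).map _
  exact (isUnit_pow_iff hℓ.ne').mp h

/-- The powers of the root form a basis of the Kummer algebra. -/
noncomputable def kumBasis (hℓ : 0 < ℓ) (a : F) : Module.Basis (Fin ℓ) F (Kum ℓ a) :=
  (AdjoinRoot.powerBasis' (monic_X_pow_sub_C a hℓ.ne')).basis.reindex
    (finCongr (by rw [AdjoinRoot.powerBasis'_dim, natDegree_X_pow_sub_C]))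

lemma kumBasis_apply (hℓ : 0 < ℓ) (a : F) (i : Fin ℓ) :
    kumBasis hℓ a i = AdjoinRoot.root (X ^ ℓ - C a : F[X]) ^ (i : ℕ) := by
  simp [kumBasis]

lemma linearIndependent_kumRep (hℓ : 0 < ℓ) (hζp : IsPrimitiveRoot ζ ℓ) (hℓF : (ℓ : F) ≠ 0)
    (ha : a ≠ 0) (hb : b ≠ 0) (z : Kum ℓ a)
    (hz : kumNorm hζp.pow_eq_one z ℓ = algebraMap F _ b) :
    LinearIndependent F (fun p : Fin ℓ × Fin ℓ =>
      kumRep hζp.pow_eq_one (hζp.ne_zero hℓ.ne') z hz
        (genV ℓ ζ a b ^ (p.1 : ℕ) * genU ℓ ζ a b ^ (p.2 : ℕ))) := by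
  rw [Fintype.linearIndependent_iff]
  intro g hg
  set x := AdjoinRoot.root (X ^ ℓ - C a : F[X]) with hx
  have hxu : IsUnit x := kum_root_isUnit hℓ ha
  have hζ0 : ζ ≠ 0 := hζp.ne_zero hℓ.ne'
  -- evaluate at `x ^ k`
  have h1 : ∀ k : ℕ, ∑ j : Fin ℓ, (ζ⁻¹) ^ ((j : ℕ) * k) •
      (kumNorm hζp.pow_eq_one z j * ∑ i : Fin ℓ, (g (j, i) * (ζ⁻¹) ^ ((j : ℕ) * i)) •
        x ^ (i : ℕ)) = 0 := by
    intro k
    have h2 := congrArg (fun f : Module.End F (Kum ℓ a) => f (x ^ k)) hg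
    simp only [LinearMap.sum_apply, LinearMap.smul_apply, kumRep_monomial,
      LinearMap.zero_apply] at h2
    have h3 : x ^ k * (∑ j : Fin ℓ, (ζ⁻¹) ^ ((j : ℕ) * k) •
      (kumNorm hζp.pow_eq_one z j * ∑ i : Fin ℓ, (g (j, i) * (ζ⁻¹) ^ ((j : ℕ) * i)) •
        x ^ (i : ℕ))) = 0 := by
      rw [← h2, Fintype.sum_prod_type, Finset.mul_sum]
      apply Finset.sum_congr rfl
      intro j _
      rw [mul_smul_comm, Finset.mul_sum, Finset.mul_sum, Finset.smul_sum]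
      apply Finset.sum_congr rfl
      intro i _
      rw [← pow_add, map_pow, ← hx]
      have h4 : ((kumSigma ℓ ζ a hζp.pow_eq_one) ^ (j : ℕ)) x = (ζ⁻¹) ^ (j : ℕ) • x := by
        rw [AlgHom.coe_pow, hx, kumSigma_iter_root]
      rw [h4, _root_.smul_pow, mul_smul_comm, mul_smul_comm, mul_smul_comm, smul_smul, smul_smul,
        ← pow_mul, mul_add, pow_add, pow_add]
      have h5 : x ^ k * (kumNorm hζp.pow_eq_one z ↑j * x ^ (i : ℕ)) =
        kumNorm hζp.pow_eq_one z ↑j * (x ^ (i : ℕ) * x ^ k) := by ring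
      rw [h5]
      congr 1
      ring
    exact (hxu.pow k).mul_right_eq_zero.mp h3
  have h6 : ∀ j0 : Fin ℓ, ∑ i : Fin ℓ, (g (j0, i) * (ζ⁻¹) ^ ((j0 : ℕ) * i)) • x ^ (i : ℕ) = 0 := by
    intro j0
    set T : Fin ℓ → Kum ℓ a := fun j => kumNorm hζp.pow_eq_one z j *
      ∑ i : Fin ℓ, (g (j, i) * (ζ⁻¹) ^ ((j : ℕ) * i)) • x ^ (i : ℕ) with hT
    have h7 : ∑ k ∈ Finset.range ℓ, ζ ^ ((j0 : ℕ) * k) •
        ∑ j : Fin ℓ, (ζ⁻¹) ^ ((j : ℕ) * k) • T j = 0 := by
      apply Finset.sum_eq_zero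
      intro k _
      rw [h1 k, smul_zero]
    have h8 : ∑ k ∈ Finset.range ℓ, ζ ^ ((j0 : ℕ) * k) •
        ∑ j : Fin ℓ, (ζ⁻¹) ^ ((j : ℕ) * k) • T j = (ℓ : F) • T j0 := by
      simp_rw [Finset.smul_sum]
      rw [Finset.sum_comm]
      rw [Finset.sum_eq_single j0]
      · simp_rw [smul_smul]
        rw [← Finset.sum_smul]
        congr 1
        have : ∀ k ∈ Finset.range ℓ, ζ ^ ((j0 : ℕ) * k) * (ζ⁻¹) ^ ((j0 : ℕ) * k) = 1 := by
          intro k _
          rw [← mul_pow, mul_inv_cancel₀ hζ0, one_pow]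
        rw [Finset.sum_congr rfl this]
        simp
      · intro j _ hj
        simp_rw [smul_smul]
        rw [← Finset.sum_smul]
        have h9 : ∀ k ∈ Finset.range ℓ, ζ ^ ((j0 : ℕ) * k) * (ζ⁻¹) ^ ((j : ℕ) * k) =
            (ζ ^ (j0 : ℕ) * (ζ⁻¹) ^ (j : ℕ)) ^ k := by
          intro k _
          rw [mul_pow, ← pow_mul, ← pow_mul]
        rw [Finset.sum_congr rfl h9]
        have h10 : ζ ^ (j0 : ℕ) * (ζ⁻¹) ^ (j : ℕ) ≠ 1 := by
          intro h
          apply hj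
          rw [inv_pow, ← div_eq_mul_inv, div_eq_one_iff_eq (pow_ne_zero _ hζ0)] at h
          exact (Fin.ext (hζp.pow_inj j0.2 j.2 h)).symm
        have h11 : ∑ k ∈ Finset.range ℓ, (ζ ^ (j0 : ℕ) * (ζ⁻¹) ^ (j : ℕ)) ^ k = 0 := by
          have h12 := mul_geom_sum (ζ ^ (j0 : ℕ) * (ζ⁻¹) ^ (j : ℕ)) ℓ
          have h13 : (ζ ^ (j0 : ℕ) * (ζ⁻¹) ^ (j : ℕ)) ^ ℓ = 1 := by
            rw [mul_pow, ← pow_mul, ← pow_mul, mul_comm (j0 : ℕ), mul_comm (j : ℕ), pow_mul,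
              pow_mul, inv_pow, hζp.pow_eq_one]
            simp
          rw [h13, sub_self] at h12
          exact (mul_eq_zero.mp h12).resolve_left (sub_ne_zero.mpr h10)
        rw [h11, zero_smul]
      · intro h
        exact absurd (Finset.mem_univ _) h
    rw [h7] at h8
    have h14 : T j0 = 0 := by
      rcases smul_eq_zero.mp h8.symm with h | h
      · exact absurd h hℓF
      · exact h
    exact (kumNorm_isUnit hζp.pow_eq_one z hb hz j0.2.le).mul_right_eq_zero.mp h14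
  rintro ⟨j, i⟩
  have h15 := h6 j
  have h16 : ∑ i : Fin ℓ, (g (j, i) * (ζ⁻¹) ^ ((j : ℕ) * i)) • kumBasis hℓ a i = 0 := by
    rw [← h15]
    apply Finset.sum_congr rfl
    intro i _
    rw [kumBasis_apply]
  have h17 := Fintype.linearIndependent_iff.mp (kumBasis hℓ a).linearIndependent _ h16 i
  rcases mul_eq_zero.mp h17 with h | h
  · exact h
  · exact absurd h (pow_ne_zero _ (inv_ne_zero hζ0))

/-- **Splitting criterion**: if `b` is the norm of an element `z` of the Kummer algebra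
`F[x] / (x ^ ℓ - a)`, then the cyclic algebra `(a, b)_ζ` splits. -/
theorem isSplit_of_kumNorm (hℓ : 0 < ℓ) (hζp : IsPrimitiveRoot ζ ℓ) (hℓF : (ℓ : F) ≠ 0)
    (ha : a ≠ 0) (hb : b ≠ 0) (z : Kum ℓ a)
    (hz : kumNorm hζp.pow_eq_one z ℓ = algebraMap F _ b) : IsSplit ℓ ζ a b := by
  have hli := linearIndependent_kumRep hℓ hζp hℓF ha hb z hz
  set φ := kumRep hζp.pow_eq_one (hζp.ne_zero hℓ.ne') z hz with hφ
  have : Module.Finite F (Kum ℓ a) := Module.Finite.of_basis (kumBasis hℓ a)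
  have hfr : Module.finrank F (Kum ℓ a) = ℓ := by
    rw [Module.finrank_eq_card_basis (kumBasis hℓ a), Fintype.card_fin]
  have hfrE : Module.finrank F (Module.End F (Kum ℓ a)) = ℓ * ℓ := by
    rw [Module.finrank_linearMap, hfr]
  have hfinA : Module.Finite F (CyclicAlgebra ℓ ζ a b) := by
    rw [Module.finite_def, ← span_monomials ζ a b hℓ]
    exact Submodule.fg_span (Set.finite_range _)
  have hleA : Module.finrank F (CyclicAlgebra ℓ ζ a b) ≤ ℓ * ℓ := by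
    have h := finrank_range_le_card (R := F) (fun p : Fin ℓ × Fin ℓ =>
      genV ℓ ζ a b ^ (p.1 : ℕ) * genU ℓ ζ a b ^ (p.2 : ℕ))
    rw [Set.finrank, span_monomials ζ a b hℓ, finrank_top] at h
    simpa using h
  have hsurj : Function.Surjective φ := by
    have hspan : Submodule.span F (Set.range (fun p : Fin ℓ × Fin ℓ =>
      φ (genV ℓ ζ a b ^ (p.1 : ℕ) * genU ℓ ζ a b ^ (p.2 : ℕ)))) = ⊤ := by
      apply hli.span_eq_top_of_card_eq_finrank'
      rw [hfrE]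
      simp
    intro y
    have hy : y ∈ Submodule.span F (Set.range (fun p : Fin ℓ × Fin ℓ =>
      φ (genV ℓ ζ a b ^ (p.1 : ℕ) * genU ℓ ζ a b ^ (p.2 : ℕ)))) := by
      rw [hspan]; trivial
    have hle : Submodule.span F (Set.range (fun p : Fin ℓ × Fin ℓ =>
      φ (genV ℓ ζ a b ^ (p.1 : ℕ) * genU ℓ ζ a b ^ (p.2 : ℕ)))) ≤
        LinearMap.range φ.toLinearMap := by
      rw [Submodule.span_le]
      rintro _ ⟨p, rfl⟩
      exact ⟨_, rfl⟩
    obtain ⟨w, hw⟩ := hle hy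
    exact ⟨w, hw⟩
  have hfin : Module.finrank F (CyclicAlgebra ℓ ζ a b) =
      Module.finrank F (Module.End F (Kum ℓ a)) := by
    apply le_antisymm
    · rw [hfrE]; exact hleA
    · exact LinearMap.finrank_le_finrank_of_surjective (f := φ.toLinearMap) hsurj
  have hinj : Function.Injective φ :=
    (LinearMap.injective_iff_surjective_of_finrank_eq_finrank (f := φ.toLinearMap) hfin).mpr hsurj
  let e1 : CyclicAlgebra ℓ ζ a b ≃ₐ[F] Module.End F (Kum ℓ a) :=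
    AlgEquiv.ofBijective φ ⟨hinj, hsurj⟩
  let e2 : Module.End F (Kum ℓ a) ≃ₐ[F] Matrix (Fin ℓ) (Fin ℓ) F :=
    algEquivMatrix (kumBasis hℓ a)
  exact ⟨e1.trans e2⟩

end Criterion

end Pool.Agent.Helper26
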