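import Mathlib

/-!
# Approximation by `ℓ`-th powers in a valued field generated by radicals

`Ω` is a field with a valuation `v` (of arbitrary rank), `L` a subfield, `D` a multiplicative set
of elements of `L`, closed under `ℓ`-th roots and containing `ℓ`, with `v ℓ < 1`.  We show
that every element of `L` of the form `δ * a` with `δ ∈ D` and `a` a sum of elements of `D` of
value at most one, not infinitely small with respect to `ℓ`, is an `ℓ`-th power times `1 + x`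
with `v x < v ℓ`.
-/

namespace Pool.Agent.Helper26.Val

open Finset

variable {Ω : Type*} [Field Ω] {Γ₀ : Type*} [LinearOrderedCommGroupWithZero Γ₀]
  (v : Valuation Ω Γ₀)

lemma natCast_le_one (n : ℕ) : v (n : Ω) ≤ 1 := by
  induction n with
  | zero => simp
  | succ n ih =>
    push_cast
    exact v.map_add_le ih (by rw [v.map_one])

/-- The elements of value at most one of a subfield. -/
def ringO (L : Subfield Ω) : Subring Ω where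
  carrier := {x | x ∈ L ∧ v x ≤ 1}
  mul_mem' := by
    rintro x y ⟨hx, hx1⟩ ⟨hy, hy1⟩
    refine ⟨L.mul_mem hx hy, ?_⟩
    rw [v.map_mul]
    exact mul_le_one' hx1 hy1
  one_mem' := ⟨L.one_mem, by rw [v.map_one]⟩
  add_mem' := by
    rintro x y ⟨hx, hx1⟩ ⟨hy, hy1⟩
    exact ⟨L.add_mem hx hy, v.map_add_le hx1 hy1⟩
  zero_mem' := ⟨L.zero_mem, by simp⟩
  neg_mem' := by
    rintro x ⟨hx, hx1⟩
    exact ⟨L.neg_mem hx, by rwa [v.map_neg]⟩

lemma mem_ringO {L : Subfield Ω} {x : Ω} : x ∈ ringO v L ↔ x ∈ L ∧ v x ≤ 1 := Iff.rfl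

variable (ℓ : ℕ) [hℓp : Fact ℓ.Prime]

/-- `(u + w) ^ ℓ` is close to `u ^ ℓ + w ^ ℓ`. -/
lemma val_add_pow_sub_le_of_le (L : Subfield Ω) {u w : Ω} (hu : u ∈ L) (hw : w ∈ L)
    (huw : v u ≤ v w) :
    v ((u + w) ^ ℓ - u ^ ℓ - w ^ ℓ) ≤ v (ℓ : Ω) * v u * v w ^ (ℓ - 1) := by
  by_cases hw0 : w = 0
  · subst hw0
    rw [v.map_zero, le_zero_iff, v.zero_iff] at huw
    subst huw
    simp [hℓp.out.ne_zero]
  have hwn : 0 < v w := v.pos_iff.mpr hw0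
  let q : ringO v L := ⟨u / w, L.div_mem hu hw, by
    rw [v.map_div]; exact (div_le_one₀ hwn).mpr huw⟩
  obtain ⟨r, hr⟩ := exists_add_pow_prime_eq hℓp.out q 1
  have hr' : (u / w + 1) ^ ℓ = (u / w) ^ ℓ + 1 ^ ℓ + ℓ * (u / w) * 1 * (r : Ω) := by
    have := congrArg (Subtype.val) hr
    simpa [q] using this
  have h1 : (u + w) ^ ℓ - u ^ ℓ - w ^ ℓ = ℓ * u * w ^ (ℓ - 1) * (r : Ω) := by
    have h2 : u + w = w * (u / w + 1) := by field_simp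
    have h3 : w ^ ℓ = w * w ^ (ℓ - 1) := by
      rw [← pow_succ', Nat.sub_add_cancel hℓp.out.one_lt.le]
    rw [h2, mul_pow, hr', one_pow, mul_one]
    have h4 : w ^ ℓ * (u / w) ^ ℓ = u ^ ℓ := by
      rw [← mul_pow, mul_div_cancel₀ _ hw0]
    rw [mul_add, mul_add, h4, h3]
    field_simp
    ring
  rw [h1, v.map_mul, v.map_mul, v.map_mul, v.map_pow]
  calc v (ℓ : Ω) * v u * v w ^ (ℓ - 1) * v (r : Ω) ≤ v (ℓ : Ω) * v u * v w ^ (ℓ - 1) * 1 :=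
        mul_le_mul_right r.2.2 _
    _ = _ := mul_one _

lemma val_add_pow_sub_le (L : Subfield Ω) {u w : Ω} (hu : u ∈ L) (hw : w ∈ L) {c : Γ₀}
    (hu' : v u ^ ℓ ≤ c) (hw' : v w ^ ℓ ≤ c) :
    v ((u + w) ^ ℓ - u ^ ℓ - w ^ ℓ) ≤ v (ℓ : Ω) * c := by
  have key : ∀ {u w : Ω}, u ∈ L → w ∈ L → v u ≤ v w → v w ^ ℓ ≤ c →
      v ((u + w) ^ ℓ - u ^ ℓ - w ^ ℓ) ≤ v (ℓ : Ω) * c := by
    intro u w hu hw huw hw'
    refine (val_add_pow_sub_le_of_le v ℓ L hu hw huw).trans ?_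
    rw [mul_assoc]
    apply mul_le_mul_right
    calc v u * v w ^ (ℓ - 1) ≤ v w * v w ^ (ℓ - 1) := mul_le_mul_left huw _
      _ = v w ^ ℓ := by rw [← pow_succ', Nat.sub_add_cancel hℓp.out.one_lt.le]
      _ ≤ c := hw'
  rcases le_total (v u) (v w) with h | h
  · exact key hu hw h hw'
  · have := key hw hu h hu'
    rwa [add_comm w u, sub_right_comm] at this

/-- The ring of `N`-th ghost components of Witt vectors. -/
noncomputable def ghostRing (L : Subfield Ω) (N : ℕ) : Subring Ω :=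
  ((ringO v L).subtype.comp (WittVector.ghostComponent (p := ℓ) (R := ringO v L) N)).range

lemma mem_ghostRing {L : Subfield Ω} {N : ℕ} {x : Ω} : x ∈ ghostRing v ℓ L N ↔
    ∃ z : ℕ → Ω, (∀ k, z k ∈ ringO v L) ∧
      x = ∑ k ∈ range (N + 1), (ℓ : Ω) ^ k * z k ^ ℓ ^ (N - k) := by
  constructor
  · rintro ⟨y, rfl⟩
    refine ⟨fun k => (y.coeff k : Ω), fun k => (y.coeff k).2, ?_⟩
    rw [RingHom.comp_apply, WittVector.ghostComponent_apply, wittPolynomial_eq_sum_C_mul_X_pow]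
    simp
  · rintro ⟨z, hz, rfl⟩
    refine ⟨WittVector.mk ℓ (fun k => (⟨z k, hz k⟩ : ringO v L)), ?_⟩
    rw [RingHom.comp_apply, WittVector.ghostComponent_apply, wittPolynomial_eq_sum_C_mul_X_pow]
    simp

lemma pow_mem_ghostRing {L : Subfield Ω} {N : ℕ} {x : Ω} (hx : x ∈ ringO v L) :
    x ^ ℓ ^ N ∈ ghostRing v ℓ L N := by
  rw [mem_ghostRing]
  refine ⟨fun k => if k = 0 then x else 0, fun k => ?_, ?_⟩
  · dsimp only
    split_ifs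
    · exact hx
    · exact (ringO v L).zero_mem
  · rw [Finset.sum_eq_single 0]
    · simp
    · intro k _ hk
      simp [hk, hℓp.out.ne_zero]
    · simp

section

variable {ℓ} {L : Subfield Ω} {D : Set Ω} (hDL : ∀ d ∈ D, d ∈ L)
  (hroot : ∀ d ∈ D, ∃ e ∈ D, e ^ ℓ = d)
  (hℓD : (ℓ : Ω) ∈ D) (hℓ1 : v (ℓ : Ω) < 1) (hℓ0 : (ℓ : Ω) ≠ 0)

omit [hℓp : Fact ℓ.Prime] in
include hroot in
lemma exists_root_pow (N : ℕ) : ∀ d ∈ D, ∃ e ∈ D, e ^ ℓ ^ N = d := by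
  induction N with
  | zero => intro d hd; exact ⟨d, hd, by simp⟩
  | succ N ih =>
    intro d hd
    obtain ⟨e, he, hed⟩ := ih d hd
    obtain ⟨f, hf, hfe⟩ := hroot e he
    exact ⟨f, hf, by rw [pow_succ', pow_mul, hfe, hed]⟩

include hDL hroot in
lemma mem_ghostRing_of_mem {N : ℕ} {d : Ω} (hd : d ∈ D) (hd1 : v d ≤ 1) :
    d ∈ ghostRing v ℓ L N := by
  obtain ⟨e, he, hed⟩ := exists_root_pow hroot N d hd
  rw [← hed]
  apply pow_mem_ghostRing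
  refine ⟨hDL e he, ?_⟩
  rw [← hed, v.map_pow] at hd1
  exact (pow_le_one_iff (pow_ne_zero _ hℓp.out.ne_zero)).mp hd1

include hDL hroot in
lemma mem_ghostRing_of_mem_closure {N : ℕ} {a : Ω}
    (ha : a ∈ AddSubmonoid.closure {d | d ∈ D ∧ v d ≤ 1}) : a ∈ ghostRing v ℓ L N := by
  induction ha using AddSubmonoid.closure_induction with
  | mem d hd => exact mem_ghostRing_of_mem v hDL hroot hd.1 hd.2
  | zero => exact (ghostRing v ℓ L N).zero_mem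
  | add x y _ _ hx hy => exact (ghostRing v ℓ L N).add_mem hx hy

include hDL hroot hℓD hℓ0 in
lemma ghostRing_div {N : ℕ} {x : Ω} (hx : x ∈ ghostRing v ℓ L (N + 1)) (hx1 : v x ≤ v (ℓ : Ω)) :
    ∃ x' ∈ ghostRing v ℓ L N, x = (ℓ : Ω) * x' := by
  obtain ⟨z, hz, hxz⟩ := (mem_ghostRing v ℓ).mp hx
  set w : Ω := ∑ k ∈ range (N + 1), (ℓ : Ω) ^ k * z (k + 1) ^ ℓ ^ (N - k) with hw
  have hwm : w ∈ ghostRing v ℓ L N := (mem_ghostRing v ℓ).mpr ⟨fun k => z (k + 1),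
    fun k => hz (k + 1), hw⟩
  have hxw : x = z 0 ^ ℓ ^ (N + 1) + (ℓ : Ω) * w := by
    rw [hxz, Finset.sum_range_succ', hw, Finset.mul_sum, add_comm]
    simp only [pow_zero, one_mul, Nat.sub_zero]
    congr 1
    apply Finset.sum_congr rfl
    intro k _
    rw [pow_succ', mul_assoc, Nat.add_sub_add_right]
  have hw1 : v w ≤ 1 := by
    have : w ∈ ringO v L := by
      rw [hw]
      refine (ringO v L).sum_mem fun k _ => (ringO v L).mul_mem ((ringO v L).pow_mem ?_ _)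
        ((ringO v L).pow_mem (hz _) _)
      exact natCast_mem _ _
    exact this.2
  have hz0 : v (z 0 ^ ℓ ^ (N + 1)) ≤ v (ℓ : Ω) := by
    have : z 0 ^ ℓ ^ (N + 1) = x - (ℓ : Ω) * w := by rw [hxw]; ring
    rw [this]
    apply v.map_sub_le hx1
    rw [v.map_mul]
    exact mul_le_of_le_one_right' hw1
  obtain ⟨t, ht, htℓ⟩ := exists_root_pow hroot (N + 1) (ℓ : Ω) hℓD
  have ht0 : t ≠ 0 := by
    rintro rfl
    rw [zero_pow (pow_ne_zero _ hℓp.out.ne_zero)] at htℓ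
    exact hℓ0 htℓ.symm
  have hz0' : z 0 / t ∈ ringO v L := by
    refine ⟨L.div_mem (hz 0).1 (hDL t ht), ?_⟩
    have h1 : v (z 0 / t) ^ ℓ ^ (N + 1) ≤ 1 := by
      rw [← v.map_pow, div_pow, htℓ, v.map_div]
      exact (div_le_one₀ (v.pos_iff.mpr hℓ0)).mpr hz0
    exact (pow_le_one_iff (pow_ne_zero _ hℓp.out.ne_zero)).mp h1
  refine ⟨(z 0 / t) ^ ℓ ^ (N + 1) + w, (ghostRing v ℓ L N).add_mem ?_ hwm, ?_⟩
  · rw [pow_succ', pow_mul]
    exact pow_mem_ghostRing v ℓ ((ringO v L).pow_mem hz0' _)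
  · rw [hxw, div_pow, htℓ]
    field_simp

include hDL hroot hℓD hℓ0 in
lemma ghostRing_div_pow (m i : ℕ) : ∀ x ∈ ghostRing v ℓ L (m + i), v x ≤ v (ℓ : Ω) ^ i →
    ∃ x' ∈ ghostRing v ℓ L m, x = (ℓ : Ω) ^ i * x' := by
  induction i with
  | zero => intro x hx _; exact ⟨x, hx, by simp⟩
  | succ i ih =>
    intro x hx hx1
    have hℓn : 0 < v (ℓ : Ω) := v.pos_iff.mpr hℓ0
    have hℓ1' : v (ℓ : Ω) ≤ 1 := natCast_le_one v ℓ
    have h1 : v x ≤ v (ℓ : Ω) := by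
      refine hx1.trans ?_
      rw [pow_succ']
      exact mul_le_of_le_one_right' (pow_le_one' hℓ1' _)
    obtain ⟨x', hx', hxx'⟩ := ghostRing_div v hDL hroot hℓD hℓ0 hx h1
    have h2 : v x' ≤ v (ℓ : Ω) ^ i := by
      rw [hxx', v.map_mul, pow_succ'] at hx1
      exact le_of_mul_le_mul_left hx1 hℓn
    obtain ⟨x'', hx'', h3⟩ := ih x' hx' h2
    exact ⟨x'', hx'', by rw [hxx', h3, pow_succ', mul_assoc]⟩

/-- Elements not infinitely small with respect to `γ` lie between consecutive powers of `γ`. -/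
lemma exists_pow_near {γ x : Γ₀} (hx1 : x ≤ 1) {m : ℕ} (hm : γ ^ m ≤ x) (hγ0 : 0 < γ)
    (hγ : γ < 1) : ∃ i : ℕ, γ ^ (i + 1) < x ∧ x ≤ γ ^ i := by
  classical
  have hex : ∃ i : ℕ, γ ^ (i + 1) < x := by
    refine ⟨m, lt_of_lt_of_le ?_ hm⟩
    rw [pow_succ]
    exact mul_lt_of_lt_one_right (pow_pos hγ0 m) hγ
  refine ⟨Nat.find hex, Nat.find_spec hex, ?_⟩
  rcases Nat.eq_zero_or_pos (Nat.find hex) with h | h
  · rw [h, pow_zero]; exact hx1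
  · have h1 := Nat.find_min hex (m := Nat.find hex - 1) (by omega)
    rw [Nat.sub_add_cancel h] at h1
    exact not_lt.mp h1

include hDL hroot hℓD hℓ1 hℓ0 in
/-- Every element of `L` which is `D`-proportional to a sum of elements of `D` of value at most
one and which is not infinitely small is an `ℓ`-th power times `1 + x` with `v x ≤ v ℓ`. -/
lemma exists_pow_mul_one_add {a : Ω} (ha0 : a ≠ 0)
    (ha : ∃ δ ∈ D, δ ≠ 0 ∧ ∃ a' ∈ AddSubmonoid.closure {d | d ∈ D ∧ v d ≤ 1},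
      a = δ * a' ∧ ∃ m : ℕ, v (ℓ : Ω) ^ m ≤ v a') :
    ∃ c ∈ L, ∃ x ∈ L, v x ≤ v (ℓ : Ω) ∧ a = c ^ ℓ * (1 + x) := by
  have hℓn : 0 < v (ℓ : Ω) := v.pos_iff.mpr hℓ0
  obtain ⟨δ, hδ, hδ0, x, hxcl, hax, m, hm⟩ := ha
  have hj2 : ∀ N, x ∈ ghostRing v ℓ L N := fun N =>
    mem_ghostRing_of_mem_closure v hDL hroot hxcl
  have hj1 : v x ≤ 1 := by
    obtain ⟨y, hy⟩ := hj2 0
    rw [← hy]
    exact ((WittVector.ghostComponent (p := ℓ) (R := ringO v L) 0) y).2.2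
  have hx0 : x ≠ 0 := by
    rintro rfl
    exact ha0 (by rw [hax, mul_zero])
  obtain ⟨i, hi1, hi2⟩ := exists_pow_near hj1 hm hℓn hℓ1
  obtain ⟨y, hy, hxy⟩ := ghostRing_div_pow v hDL hroot hℓD hℓ0 2 i x (hj2 _) hi2
  have hy1 : v (ℓ : Ω) < v y := by
    rw [hxy, v.map_mul, v.map_pow, pow_succ] at hi1
    exact lt_of_mul_lt_mul_left' hi1
  obtain ⟨z, hz, hyz⟩ := (mem_ghostRing v ℓ).mp hy
  obtain ⟨t, ht, htℓ⟩ := hroot (ℓ : Ω) hℓD
  have hyz' : y = (z 0 ^ ℓ) ^ ℓ + (ℓ : Ω) * z 1 ^ ℓ + (ℓ : Ω) ^ 2 * z 2 := by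
    rw [hyz, Finset.sum_range_succ, Finset.sum_range_succ, Finset.sum_range_succ]
    simp only [Finset.range_zero, Finset.sum_empty, pow_zero, one_mul, Nat.sub_zero, zero_add,
      pow_one, Nat.reduceSub, tsub_self]
    rw [sq ℓ, pow_mul]
  have hℓy : ∀ w ∈ ringO v L, v ((ℓ : Ω) * w) ≤ v y := by
    intro w hw
    rw [v.map_mul]
    exact (mul_le_of_le_one_right' hw.2).trans hy1.le
  have hz0 : v (z 0 ^ ℓ) ^ ℓ ≤ v y := by
    rw [← v.map_pow]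
    have : (z 0 ^ ℓ) ^ ℓ = y - (ℓ : Ω) * (z 1 ^ ℓ + ℓ * z 2) := by rw [hyz']; ring
    rw [this]
    apply v.map_sub_le le_rfl
    apply hℓy
    exact (ringO v L).add_mem ((ringO v L).pow_mem (hz 1) _)
      ((ringO v L).mul_mem (natCast_mem _ _) (hz 2))
  have hz1 : v (t * z 1) ^ ℓ ≤ v y := by
    rw [← v.map_pow, mul_pow, htℓ]
    exact hℓy _ ((ringO v L).pow_mem (hz 1) _)
  have hbin := val_add_pow_sub_le v ℓ L (L.pow_mem (hz 0).1 ℓ)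
    (L.mul_mem (hDL t ht) (hz 1).1) hz0 hz1
  set b := z 0 ^ ℓ + t * z 1 with hb
  have hbL : b ∈ L := L.add_mem (L.pow_mem (hz 0).1 ℓ) (L.mul_mem (hDL t ht) (hz 1).1)
  have hyb : v (y - b ^ ℓ) ≤ v (ℓ : Ω) * v y := by
    have : y - b ^ ℓ = (ℓ : Ω) ^ 2 * z 2 - (b ^ ℓ - (z 0 ^ ℓ) ^ ℓ - (t * z 1) ^ ℓ) := by
      rw [hyz', mul_pow, htℓ]; ring
    rw [this]
    apply v.map_sub_le _ hbin
    rw [sq, mul_assoc, v.map_mul]
    exact mul_le_mul_right (hℓy _ (hz 2)) _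
  have hyn : 0 < v y := hℓn.trans hy1
  have hyL : y ∈ L := by
    rw [hyz']
    exact L.add_mem (L.add_mem (L.pow_mem (L.pow_mem (hz 0).1 _) _)
      (L.mul_mem (natCast_mem _ _) (L.pow_mem (hz 1).1 _)))
      (L.mul_mem (L.pow_mem (natCast_mem _ _) _) (hz 2).1)
  have hbn : v (b ^ ℓ) = v y := by
    have h1 : v (y - b ^ ℓ) < v y := hyb.trans_lt (mul_lt_of_lt_one_left hyn hℓ1)
    have h2 := v.map_sub_eq_of_lt_left h1
    rwa [sub_sub_cancel] at h2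
  have hbℓ0 : b ^ ℓ ≠ 0 := v.pos_iff.mp (hbn ▸ hyn)
  have ht0 : t ≠ 0 := by
    rintro rfl
    rw [zero_pow hℓp.out.ne_zero] at htℓ
    exact hℓ0 htℓ.symm
  obtain ⟨ε, hε, hεδ⟩ := hroot δ hδ
  refine ⟨ε * t ^ i * b, L.mul_mem (L.mul_mem (hDL ε hε) (L.pow_mem (hDL t ht) _)) hbL,
    (y - b ^ ℓ) / b ^ ℓ,
    L.div_mem (L.sub_mem hyL (L.pow_mem hbL _)) (L.pow_mem hbL _), ?_, ?_⟩
  · rw [v.map_div, hbn]
    exact (div_le_iff₀ hyn).mpr hyb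
  · have h1 : b ^ ℓ * (1 + (y - b ^ ℓ) / b ^ ℓ) = y := by field_simp; ring
    have h2 : (ε * t ^ i) ^ ℓ = δ * (ℓ : Ω) ^ i := by
      rw [mul_pow, hεδ, ← pow_mul, mul_comm i, pow_mul, htℓ]
    rw [mul_pow, h2, mul_assoc, h1, hax, hxy]
    ring

include hDL hroot hℓD hℓ1 hℓ0 in
/-- Improvement of `exists_pow_mul_one_add`. -/
lemma exists_pow_mul_one_add_lt (hrep : ∀ a ∈ L, a ≠ 0 →
      ∃ δ ∈ D, δ ≠ 0 ∧ ∃ a' ∈ AddSubmonoid.closure {d | d ∈ D ∧ v d ≤ 1},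
      a = δ * a' ∧ ∃ m : ℕ, v (ℓ : Ω) ^ m ≤ v a') {a : Ω} (ha : a ∈ L) (ha0 : a ≠ 0) :
    ∃ c ∈ L, ∃ x ∈ L, v x < v (ℓ : Ω) ∧ a = c ^ ℓ * (1 + x) := by
  have hℓn : 0 < v (ℓ : Ω) := v.pos_iff.mpr hℓ0
  obtain ⟨c, hc, x, hx, hx1, rfl⟩ :=
    exists_pow_mul_one_add v hDL hroot hℓD hℓ1 hℓ0 ha0 (hrep a ha ha0)
  by_cases hx0 : x = 0
  · exact ⟨c, hc, x, hx, by simpa [hx0] using hℓn, rfl⟩
  obtain ⟨e, he, y, hy, hy1, hxe⟩ :=
    exists_pow_mul_one_add v hDL hroot hℓD hℓ1 hℓ0 hx0 (hrep x hx hx0)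
  have h1y : v (1 + y) = 1 := v.map_one_add_of_lt (hy1.trans_lt hℓ1)
  have hen : v e ^ ℓ ≤ v (ℓ : Ω) := by
    rw [hxe, v.map_mul, h1y, mul_one, v.map_pow] at hx1
    exact hx1
  have he1 : v e < 1 := by
    by_contra h
    exact absurd ((one_le_pow_of_one_le' (not_lt.mp h) ℓ).trans hen) (not_le.mpr hℓ1)
  have h1e : v (1 + e) = 1 := v.map_one_add_of_lt he1
  have h1e0 : 1 + e ≠ 0 := v.pos_iff.mp (h1e ▸ one_pos)
  have hbin := val_add_pow_sub_le_of_le v ℓ L he L.one_mem (by rw [v.map_one]; exact he1.le)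
  rw [v.map_one, one_pow, one_pow, mul_one, add_comm e 1] at hbin
  have hbin' : v ((1 + e) ^ ℓ - e ^ ℓ - 1) < v (ℓ : Ω) :=
    hbin.trans_lt (mul_lt_of_lt_one_right hℓn he1)
  have hey : v (e ^ ℓ * y) < v (ℓ : Ω) := by
    rw [v.map_mul, v.map_pow]
    calc v e ^ ℓ * v y ≤ v (ℓ : Ω) * v (ℓ : Ω) := mul_le_mul' hen hy1
      _ < v (ℓ : Ω) := mul_lt_of_lt_one_right hℓn hℓ1
  set r := e ^ ℓ * y - ((1 + e) ^ ℓ - e ^ ℓ - 1) with hr
  have hr1 : v r < v (ℓ : Ω) := v.map_sub_lt hey hbin'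
  have hrL : r ∈ L := by
    have h1 : (1 + e) ^ ℓ ∈ L := L.pow_mem (L.add_mem L.one_mem he) _
    exact L.sub_mem (L.mul_mem (L.pow_mem he _) hy)
      (L.sub_mem (L.sub_mem h1 (L.pow_mem he _)) L.one_mem)
  have h1x : 1 + x = (1 + e) ^ ℓ + r := by
    rw [hr, hxe]; ring
  refine ⟨c * (1 + e), L.mul_mem hc (L.add_mem L.one_mem he), r / (1 + e) ^ ℓ,
    L.div_mem hrL (L.pow_mem (L.add_mem L.one_mem he) _), ?_, ?_⟩
  · rw [v.map_div, v.map_pow, h1e, one_pow, div_one]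
    exact hr1
  · rw [h1x, mul_pow]
    have : (1 + e) ^ ℓ ≠ 0 := pow_ne_zero _ h1e0
    field_simp

end

end Pool.Agent.Helper26.Val
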