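import Pool.Agent.Helper26.RadClosure
import Pool.Agent.Helper26.ValuationApprox

/-!
# Representation of elements of `ℓ^∞√K` by sums of small radicals

`v` is a valuation on an algebraic closure of `K` invariant under the Galois group.  Every element
`a` of `ℓ^∞√K` is a sum of elements `d` with `d ^ ℓ ^ n ∈ K` and `v d * v ℓ ^ m ≤ v a` for some
`m`.
-/

namespace Pool.Agent.Helper26.Val

open Finset IntermediateField

universe u

variable (ℓ : ℕ) (K : Type u) [Field K]
  {Γ₀ : Type*} [LinearOrderedCommGroupWithZero Γ₀]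
  (v : Valuation (AlgebraicClosure K) Γ₀)

/-- The set of all elements `a` which are sums of radicals `d` with `v d * v ℓ ^ m ≤ v a`. -/
def goodSet : Set (AlgebraicClosure K) :=
  {a | ∃ m : ℕ, a ∈ AddSubmonoid.closure
    {d | d ∈ radSet ℓ K ∧ v d * v (ℓ : AlgebraicClosure K) ^ m ≤ v a}}

lemma pow_mem_radSet {d : AlgebraicClosure K} (hd : d ∈ radSet ℓ K) (n : ℕ) :
    d ^ n ∈ radSet ℓ K := by
  induction n with
  | zero => simpa using one_mem_radSet ℓ K
  | succ n ih => rw [pow_succ]; exact mul_mem_radSet ℓ K ih hd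

lemma closure_mono_exp {γ : Γ₀} {m m' : ℕ} (h : m ≤ m') :
    AddSubmonoid.closure {d | d ∈ radSet ℓ K ∧ v d * v (ℓ : AlgebraicClosure K) ^ m ≤ γ} ≤
    AddSubmonoid.closure {d | d ∈ radSet ℓ K ∧ v d * v (ℓ : AlgebraicClosure K) ^ m' ≤ γ} := by
  apply AddSubmonoid.closure_mono
  rintro d ⟨hd, hd1⟩
  refine ⟨hd, le_trans ?_ hd1⟩
  exact mul_le_mul_right (pow_le_pow_right_of_le_one' (natCast_le_one v ℓ) h) _

lemma mul_mem_closure_exp {γ γ' : Γ₀} {m m' : ℕ} {a d : AlgebraicClosure K}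
    (ha : a ∈ AddSubmonoid.closure
      {d | d ∈ radSet ℓ K ∧ v d * v (ℓ : AlgebraicClosure K) ^ m ≤ γ})
    (hd : d ∈ radSet ℓ K) (h : v (ℓ : AlgebraicClosure K) ^ m' * (γ * v d) ≤ γ') :
    a * d ∈ AddSubmonoid.closure
      {d | d ∈ radSet ℓ K ∧ v d * v (ℓ : AlgebraicClosure K) ^ (m + m') ≤ γ'} := by
  induction ha using AddSubmonoid.closure_induction with
  | mem x hx =>
    apply AddSubmonoid.subset_closure
    refine ⟨mul_mem_radSet ℓ K hx.1 hd, le_trans ?_ h⟩
    rw [v.map_mul, pow_add]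
    calc v x * v d * (v (ℓ : AlgebraicClosure K) ^ m * v (ℓ : AlgebraicClosure K) ^ m') =
        v (ℓ : AlgebraicClosure K) ^ m' * ((v x * v (ℓ : AlgebraicClosure K) ^ m) * v d) := by
          ac_rfl
      _ ≤ _ := mul_le_mul_right (mul_le_mul_left hx.2 _) _
  | zero => rw [zero_mul]; exact AddSubmonoid.zero_mem _
  | add x y _ _ hx hy => rw [add_mul]; exact AddSubmonoid.add_mem _ hx hy

variable {ℓ K v} [hℓp : Fact ℓ.Prime] {ζ : K} (hζ : IsPrimitiveRoot ζ ℓ)
  (hv : ∀ (σ : AlgebraicClosure K ≃ₐ[K] AlgebraicClosure K) (x : AlgebraicClosure K),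
    v (σ x) = v x)

include hζ hv in
/-- The components of an element with respect to a radical basis. -/
lemma val_component_le (E : IntermediateField K (AlgebraicClosure K))
    {d : AlgebraicClosure K} (hdE : d ^ ℓ ∈ E) (hdE' : d ∉ E)
    (f : ℕ → E) {j : ℕ} (hj : j < ℓ) :
    v ((ℓ : AlgebraicClosure K) * ((f j : AlgebraicClosure K) * d ^ j)) ≤
      v (∑ i ∈ range ℓ, (f i : AlgebraicClosure K) * d ^ i) := by
  have hζΩ : IsPrimitiveRoot (algebraMap K (AlgebraicClosure K) ζ) ℓ :=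
    hζ.map_of_injective (algebraMap K (AlgebraicClosure K)).injective
  set ξ := algebraMap K (AlgebraicClosure K) ζ with hξ
  set c : E := ⟨d ^ ℓ, hdE⟩ with hc
  have hd0 : d ≠ 0 := fun h => hdE' (h ▸ E.zero_mem)
  have : NeZero ℓ := ⟨hℓp.out.ne_zero⟩
  have hirr : Irreducible (Polynomial.X ^ ℓ - Polynomial.C c) := by
    apply X_pow_sub_C_irreducible_of_prime hℓp.out
    intro b hb
    apply hdE'
    have h1 : (b : AlgebraicClosure K) ^ ℓ = d ^ ℓ := by
      have := congrArg Subtype.val hb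
      simpa [hc] using this
    have hb0 : (b : AlgebraicClosure K) ≠ 0 := by
      intro h
      rw [h, zero_pow hℓp.out.ne_zero] at h1
      exact pow_ne_zero _ hd0 h1.symm
    obtain ⟨i, _, hi⟩ := hζΩ.eq_pow_of_pow_eq_one (ξ := d / b) (by
      rw [div_pow, h1]
      exact div_self (pow_ne_zero _ hd0))
    have h2 : d = ξ ^ i * b := by
      rw [hi]; field_simp
    rw [h2]
    exact E.mul_mem (pow_mem (E.algebraMap_mem ζ) _) b.2
  have haeval : ∀ y : AlgebraicClosure K, y ^ ℓ = d ^ ℓ →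
      Polynomial.aeval y (Polynomial.X ^ ℓ - Polynomial.C c) = 0 := by
    intro y hy
    rw [map_sub, map_pow, Polynomial.aeval_X, Polynomial.aeval_C, hy]
    exact sub_self _
  have hmin : Polynomial.X ^ ℓ - Polynomial.C c = minpoly E d :=
    minpoly.eq_of_irreducible_of_monic hirr (haeval d rfl)
      (Polynomial.monic_X_pow_sub_C _ hℓp.out.ne_zero)
  -- automorphisms
  have hσ : ∀ k : ℕ, ∃ σ : AlgebraicClosure K ≃ₐ[E] AlgebraicClosure K, σ d = ξ ^ k * d := by
    intro k
    have h1 : IsConjRoot E d (ξ ^ k * d) := by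
      apply isConjRoot_of_aeval_eq_zero (Algebra.IsIntegral.isIntegral d)
      rw [← hmin]
      apply haeval
      rw [mul_pow, ← pow_mul, mul_comm k, pow_mul, hζΩ.pow_eq_one, one_pow, one_mul]
    exact isConjRoot_iff_exists_algEquiv.mp h1.symm
  choose σ hσd using hσ
  have hvξ : v ξ = 1 := by
    have h1 : v ξ ^ ℓ = 1 := by rw [← v.map_pow, hζΩ.pow_eq_one, v.map_one]
    exact (pow_eq_one_iff_left hℓp.out.ne_zero).mp h1
  -- the component as a sum of conjugates
  set e := ∑ i ∈ range ℓ, (f i : AlgebraicClosure K) * d ^ i with he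
  have hcomp : (ℓ : AlgebraicClosure K) * ((f j : AlgebraicClosure K) * d ^ j) =
      ∑ k ∈ range ℓ, ξ ^ ((ℓ - j) * k) * σ k e := by
    have h1 : ∀ k, σ k e = ∑ i ∈ range ℓ, (f i : AlgebraicClosure K) * d ^ i * ξ ^ (i * k) := by
      intro k
      rw [he, map_sum]
      apply Finset.sum_congr rfl
      intro i _
      rw [map_mul, map_pow, hσd, mul_pow, ← pow_mul, mul_comm k i]
      have h2 : σ k (f i : AlgebraicClosure K) = (f i : AlgebraicClosure K) :=
        (σ k).commutes (f i)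
      rw [h2]
      ring
    simp_rw [h1, Finset.mul_sum]
    rw [Finset.sum_comm, Finset.sum_eq_single j]
    · have h3 : ∀ k ∈ range ℓ, ξ ^ ((ℓ - j) * k) *
          ((f j : AlgebraicClosure K) * d ^ j * ξ ^ (j * k)) =
          (f j : AlgebraicClosure K) * d ^ j := by
        intro k _
        have h4 : ξ ^ ((ℓ - j) * k) * ξ ^ (j * k) = 1 := by
          rw [← pow_add, ← add_mul, Nat.sub_add_cancel hj.le, pow_mul, hζΩ.pow_eq_one, one_pow]
        calc _ = (f j : AlgebraicClosure K) * d ^ j * (ξ ^ ((ℓ - j) * k) * ξ ^ (j * k)) := by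
              ring
          _ = _ := by rw [h4, mul_one]
      rw [Finset.sum_congr rfl h3, Finset.sum_const, Finset.card_range, nsmul_eq_mul]
    · intro i hi hij
      have hi' : i < ℓ := Finset.mem_range.mp hi
      have h5 : ∀ k ∈ range ℓ, ξ ^ ((ℓ - j) * k) *
          ((f i : AlgebraicClosure K) * d ^ i * ξ ^ (i * k)) =
          (f i : AlgebraicClosure K) * d ^ i * (ξ ^ (i + (ℓ - j))) ^ k := by
        intro k _
        rw [← pow_mul, add_mul, pow_add]
        ring
      rw [Finset.sum_congr rfl h5, ← Finset.mul_sum]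
      have h6 : ξ ^ (i + (ℓ - j)) ≠ 1 := by
        intro h
        rw [hζΩ.pow_eq_one_iff_dvd] at h
        obtain ⟨q, hq⟩ := h
        have hq1 : q = 1 := by
          have h7 : 0 < ℓ * q := by omega
          have h8 : ℓ * q < ℓ * 2 := by omega
          have h9 : 0 < q := Nat.pos_of_mul_pos_left h7
          have h10 : q < 2 := Nat.lt_of_mul_lt_mul_left h8
          omega
        rw [hq1] at hq
        omega
      have h11 : (∑ k ∈ range ℓ, (ξ ^ (i + (ℓ - j))) ^ k) = 0 := by
        have h12 := mul_geom_sum (ξ ^ (i + (ℓ - j))) ℓ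
        rw [← pow_mul, mul_comm _ ℓ, pow_mul, hζΩ.pow_eq_one, one_pow, sub_self] at h12
        exact (mul_eq_zero.mp h12).resolve_left (sub_ne_zero.mpr h6)
      rw [h11, mul_zero]
    · intro h
      exact absurd (Finset.mem_range.mpr hj) h
  rw [hcomp]
  apply v.map_sum_le
  intro k _
  rw [v.map_mul, v.map_pow, hvξ, one_pow, one_mul]
  exact (hv ((σ k).restrictScalars K) e).le

include hζ hv in
lemma goodSet_step (E : IntermediateField K (AlgebraicClosure K))
    (hE : ∀ x ∈ E, x ∈ goodSet ℓ K v) {d : AlgebraicClosure K} (hd : d ∈ radSet ℓ K)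
    (hdE : d ^ ℓ ∈ E) {e : AlgebraicClosure K} (he : e ∈ adjoin E {d}) :
    e ∈ goodSet ℓ K v := by
  by_cases hdE' : d ∈ E
  · apply hE
    have h1 : adjoin E {d} = ⊥ := by
      rw [eq_bot_iff, adjoin_le_iff]
      rintro _ rfl
      exact mem_bot.mpr ⟨⟨_, hdE'⟩, rfl⟩
    rw [h1] at he
    obtain ⟨x, hx⟩ := mem_bot.mp he
    rw [← hx]
    exact x.2
  -- representation
  obtain ⟨f, hf⟩ : ∃ f : ℕ → E, e = ∑ i ∈ range ℓ, (f i : AlgebraicClosure K) * d ^ i := by
    have h1 : e ∈ Algebra.adjoin E {d} := by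
      rw [← adjoin_toSubalgebra]; exact he
    rw [Algebra.adjoin_singleton_eq_range_aeval] at h1
    obtain ⟨p, hp⟩ := h1
    set c : E := ⟨d ^ ℓ, hdE⟩ with hc
    set M : Polynomial E := Polynomial.X ^ ℓ - Polynomial.C c with hM
    have hMm : M.Monic := Polynomial.monic_X_pow_sub_C _ hℓp.out.ne_zero
    have hMd : Polynomial.aeval d M = 0 := by
      rw [hM, map_sub, map_pow, Polynomial.aeval_X, Polynomial.aeval_C]
      exact sub_self _
    refine ⟨fun i => (p %ₘ M).coeff i, ?_⟩
    have h2 : Polynomial.aeval d (p %ₘ M) = e := by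
      rw [Polynomial.aeval_modByMonic_eq_self_of_root hMd]
      exact hp
    have h3 : (p %ₘ M).natDegree < ℓ := by
      have := Polynomial.natDegree_modByMonic_lt p hMm (by
        intro h
        have h4 := congrArg Polynomial.natDegree h
        rw [hM, Polynomial.natDegree_X_pow_sub_C, Polynomial.natDegree_one] at h4
        exact hℓp.out.ne_zero h4)
      rwa [hM, Polynomial.natDegree_X_pow_sub_C] at this
    rw [← h2, Polynomial.aeval_eq_sum_range' h3]
    rfl
  have hcomp := fun (j : ℕ) (hj : j < ℓ) => val_component_le hζ hv E hdE hdE' f hj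
  rw [← hf] at hcomp
  have hm : ∀ j : ℕ, ∃ m : ℕ, (f j : AlgebraicClosure K) ∈ AddSubmonoid.closure
    {d | d ∈ radSet ℓ K ∧ v d * v (ℓ : AlgebraicClosure K) ^ m ≤
      v (f j : AlgebraicClosure K)} := fun j => hE _ (f j).2
  choose m hm using hm
  refine ⟨(range ℓ).sup m + 1, ?_⟩
  set γ := v e with hγ
  rw [hf]
  apply AddSubmonoid.sum_mem
  intro j hj
  have h5 := mul_mem_closure_exp (γ' := γ) (m' := 1) ℓ K v (hm j) (pow_mem_radSet ℓ K hd j) (by
    rw [pow_one, ← v.map_mul, ← v.map_mul]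
    exact hcomp j (Finset.mem_range.mp hj))
  have hle : m j + 1 ≤ (range ℓ).sup m + 1 := by
    have := Finset.le_sup (f := m) hj
    omega
  exact closure_mono_exp ℓ K v hle h5

include hζ hv in
lemma goodSet_adjoin_pow (n : ℕ) : ∀ (E : IntermediateField K (AlgebraicClosure K)),
    (∀ x ∈ E, x ∈ goodSet ℓ K v) → ∀ d ∈ radSet ℓ K, d ^ ℓ ^ n ∈ E →
    ∀ e ∈ adjoin E {d}, e ∈ goodSet ℓ K v := by
  induction n with
  | zero =>
    intro E hE d hd hdE e he
    rw [pow_zero, pow_one] at hdE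
    exact goodSet_step hζ hv E hE hd (pow_mem hdE _) he
  | succ n ih =>
    intro E hE d hd hdE e he
    set E' : IntermediateField K (AlgebraicClosure K) :=
      restrictScalars K (adjoin E {d ^ ℓ ^ n}) with hE'
    have h1 : ∀ x ∈ E', x ∈ goodSet ℓ K v := by
      intro x hx
      exact goodSet_step hζ hv E hE (pow_mem_radSet ℓ K hd (ℓ ^ n)) (by
        rw [← pow_mul, ← pow_succ]; exact hdE) hx
    have h2 : d ^ ℓ ^ n ∈ E' := mem_adjoin_simple_self E _
    apply ih E' h1 d hd h2
    have h3 : E ≤ E' := by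
      intro x hx
      exact (adjoin E {d ^ ℓ ^ n}).algebraMap_mem ⟨x, hx⟩
    have h6 : restrictScalars K (adjoin E {d}) ≤ restrictScalars K (adjoin E' {d}) := by
      rw [restrictScalars_adjoin_eq_sup, restrictScalars_adjoin_eq_sup]
      exact sup_le_sup_right h3 _
    exact h6 he

include hζ hv in
lemma goodSet_finset (s : Finset (AlgebraicClosure K)) (hs : (s : Set _) ⊆ radSet ℓ K) :
    ∀ e ∈ adjoin K (s : Set (AlgebraicClosure K)), e ∈ goodSet ℓ K v := by
  classical
  induction s using Finset.induction with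
  | empty =>
    intro e he
    rw [Finset.coe_empty, adjoin_empty] at he
    obtain ⟨c, rfl⟩ := mem_bot.mp he
    refine ⟨0, AddSubmonoid.subset_closure ⟨algebraMap_mem_radSet ℓ K c, ?_⟩⟩
    rw [pow_zero, mul_one]
  | insert d s _ ih =>
    intro e he
    have hd : d ∈ radSet ℓ K := hs (by simp)
    have h1 := ih (fun x hx => hs (by simp [Finset.mem_coe.mp hx]))
    obtain ⟨n, c, hc⟩ := hd
    have h2 := goodSet_adjoin_pow hζ hv n (adjoin K (s : Set (AlgebraicClosure K))) h1 d
      (hs (by simp)) (by rw [hc]; exact IntermediateField.algebraMap_mem _ c)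
    apply h2
    have h3 := adjoin_adjoin_left K (s : Set (AlgebraicClosure K)) {d}
    have h4 : e ∈ restrictScalars K (adjoin (adjoin K (s : Set (AlgebraicClosure K))) {d}) := by
      rw [h3]
      rwa [Finset.coe_insert, Set.insert_eq, Set.union_comm] at he
    exact h4

include hζ hv in
lemma mem_goodSet {e : AlgebraicClosure K} (he : e ∈ radClosure ℓ K) : e ∈ goodSet ℓ K v := by
  obtain ⟨s, hs, hes⟩ := exists_finset_of_mem_adjoin he
  exact goodSet_finset hζ hv s hs e hes

include hζ hv in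
/-- The representation needed for the approximation lemma. -/
lemma exists_representation {a : AlgebraicClosure K} (ha : a ∈ radClosure ℓ K) (ha0 : a ≠ 0) :
    ∃ δ ∈ radSet ℓ K, δ ≠ 0 ∧ ∃ a' ∈ AddSubmonoid.closure {d | d ∈ radSet ℓ K ∧ v d ≤ 1},
      a = δ * a' ∧ ∃ m : ℕ, v (ℓ : AlgebraicClosure K) ^ m ≤ v a' := by
  classical
  obtain ⟨m, hm⟩ := mem_goodSet hζ hv ha
  -- write `a` as a finite sum
  obtain ⟨l, hl, hla⟩ := AddSubmonoid.exists_list_of_mem_closure hm
  have hva : 0 < v a := v.pos_iff.mpr ha0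
  have hne : l.toFinset.Nonempty := by
    rw [Finset.nonempty_iff_ne_empty]
    intro h
    rw [List.toFinset_eq_empty_iff] at h
    rw [h, List.sum_nil] at hla
    exact ha0 hla.symm
  obtain ⟨δ, hδ, hmax⟩ := l.toFinset.exists_max_image v hne
  have hδl : δ ∈ l := List.mem_toFinset.mp hδ
  have hmax' : ∀ d ∈ l, v d ≤ v δ := fun d hd => hmax d (List.mem_toFinset.mpr hd)
  have hsum : ∀ l' : List (AlgebraicClosure K), (∀ d ∈ l', v d ≤ v δ) → v l'.sum ≤ v δ := by
    intro l'
    induction l' with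
    | nil => intro _; simp
    | cons x l' ih =>
      intro h
      rw [List.sum_cons]
      exact v.map_add_le (h x (by simp)) (ih fun d hd => h d (by simp [hd]))
  have hδa : v a ≤ v δ := by
    rw [← hla]
    exact hsum l hmax'
  have hvδ : 0 < v δ := hva.trans_le hδa
  have hδ0 : δ ≠ 0 := v.pos_iff.mp hvδ
  have hδinv : δ⁻¹ ∈ radSet ℓ K := by
    obtain ⟨n, c, hc⟩ := (hl δ hδl).1
    exact ⟨n, c⁻¹, by rw [inv_pow, hc, map_inv₀]⟩
  refine ⟨δ, (hl δ hδl).1, hδ0, δ⁻¹ * a, ?_, by rw [mul_inv_cancel_left₀ hδ0], m, ?_⟩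
  · rw [← hla]
    have h1 : ∀ l' : List (AlgebraicClosure K), (∀ d ∈ l', d ∈ radSet ℓ K ∧ v d ≤ v δ) →
        δ⁻¹ * l'.sum ∈ AddSubmonoid.closure {d | d ∈ radSet ℓ K ∧ v d ≤ 1} := by
      intro l'
      induction l' with
      | nil => intro _; rw [List.sum_nil, mul_zero]; exact AddSubmonoid.zero_mem _
      | cons x l' ih =>
        intro h
        rw [List.sum_cons, mul_add]
        refine AddSubmonoid.add_mem _ (AddSubmonoid.subset_closure ⟨?_, ?_⟩)
          (ih fun d hd => h d (by simp [hd]))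
        · exact mul_mem_radSet ℓ K hδinv (h x (by simp)).1
        · rw [v.map_mul, v.map_inv, inv_mul_le_iff₀ hvδ, mul_one]
          exact (h x (by simp)).2
    exact h1 l fun d hd => ⟨(hl d hd).1, hmax' d hd⟩
  · rw [v.map_mul, v.map_inv, le_inv_mul_iff₀ hvδ]
    exact (hl δ hδl).2

end Pool.Agent.Helper26.Val
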