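import Pool.Agent.Helper26.Norms
import Pool.Agent.Helper26.HenselRep

/-!
# Henselian valued fields of residue characteristic `ℓ`
-/

namespace Pool.Agent.Helper26.Val

open Finset

universe u

section

variable {Ω : Type*} [Field Ω] {Γ₀ : Type*} [LinearOrderedCommGroupWithZero Γ₀]
  (v : Valuation Ω Γ₀)

/-- The distance between distinct `ℓ`-th roots of unity. -/
lemma val_le_one_sub_pow {ℓ : ℕ} [hℓp : Fact ℓ.Prime] {ξ : Ω} (hξ : IsPrimitiveRoot ξ ℓ) :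
    v (ℓ : Ω) ≤ v (1 - ξ) ^ (ℓ - 1) := by
  obtain ⟨n, hn⟩ : ∃ n, ℓ = n + 1 := ⟨ℓ - 1, (Nat.sub_add_cancel hℓp.out.one_lt.le).symm⟩
  subst hn
  have h1 := hξ.prod_one_sub_pow_eq_order
  have hξ1 : v ξ = 1 := by
    have h2 : v ξ ^ (n + 1) = 1 := by rw [← v.map_pow, hξ.pow_eq_one, v.map_one]
    exact (pow_eq_one_iff_left (Nat.succ_ne_zero n)).mp h2
  have h3 : ∀ k ∈ range n, v (1 - ξ ^ (k + 1)) ≤ v (1 - ξ) := by
    intro k _
    rw [← mul_neg_geom_sum, v.map_mul]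
    apply mul_le_of_le_one_right'
    apply v.map_sum_le
    intro i _
    rw [v.map_pow, hξ1, one_pow]
  have h4 : v ((n + 1 : ℕ) : Ω) = ∏ k ∈ range n, v (1 - ξ ^ (k + 1)) := by
    rw [← map_prod, h1]
    push_cast
    rfl
  rw [h4]
  calc ∏ k ∈ range n, v (1 - ξ ^ (k + 1)) ≤ ∏ _k ∈ range n, v (1 - ξ) :=
        Finset.prod_le_prod' h3
    _ = v (1 - ξ) ^ (n + 1 - 1) := by
        rw [Finset.prod_const, Finset.card_range, Nat.add_sub_cancel]

/-- If `v t < v ℓ ^ 2` then `1 + t` has an `ℓ`-th root fixed by all automorphisms fixing `t`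
and preserving the valuation. -/
lemma exists_root_fixed [IsAlgClosed Ω] {ℓ : ℕ} [hℓp : Fact ℓ.Prime] {ζ : Ω}
    (hζ : IsPrimitiveRoot ζ ℓ) (hℓ1 : v (ℓ : Ω) < 1) {t : Ω}
    (ht : v t < v (ℓ : Ω) ^ 2) :
    ∃ ρ : Ω, ρ ^ ℓ = 1 + t ∧ ∀ σ : Ω →+* Ω, (∀ x, v (σ x) = v x) → σ t = t → σ ρ = ρ := by
  obtain ⟨ρ0, hρ0⟩ := IsAlgClosed.exists_pow_nat_eq (1 + t) hℓp.out.pos
  -- find a root close to one
  have h1 := _root_.X_pow_sub_C_eq_prod hζ hℓp.out.pos hρ0
  have h2 : -t = ∏ i ∈ range ℓ, (1 - ζ ^ i * ρ0) := by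
    have := congrArg (Polynomial.eval 1) h1
    simp only [Polynomial.eval_sub, Polynomial.eval_pow, Polynomial.eval_X, Polynomial.eval_C,
      Polynomial.eval_prod, one_pow] at this
    rw [← this]
    ring
  have h3 : ∃ i ∈ range ℓ, v (1 - ζ ^ i * ρ0) ^ ℓ ≤ v t := by
    by_contra hcon
    push Not at hcon
    have h4 : v t ^ ℓ < (∏ i ∈ range ℓ, v (1 - ζ ^ i * ρ0)) ^ ℓ := by
      rw [← Finset.prod_pow]
      calc v t ^ ℓ = ∏ _i ∈ range ℓ, v t := by rw [Finset.prod_const, Finset.card_range]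
        _ < ∏ i ∈ range ℓ, v (1 - ζ ^ i * ρ0) ^ ℓ := by
          by_cases ht0 : v t = 0
          · rw [ht0] at hcon ⊢
            rw [Finset.prod_const, Finset.card_range, zero_pow hℓp.out.ne_zero]
            rw [zero_lt_iff, Finset.prod_ne_zero_iff]
            intro i hi
            exact (hcon i hi).ne'
          · exact Finset.prod_lt_prod_of_nonempty (fun _ _ => zero_lt_iff.mpr ht0) hcon
              ⟨0, Finset.mem_range.mpr hℓp.out.pos⟩
    rw [← map_prod, ← h2, v.map_neg] at h4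
    exact lt_irrefl _ h4
  obtain ⟨i, -, hi⟩ := h3
  set ρ := ζ ^ i * ρ0 with hρ
  have hρℓ : ρ ^ ℓ = 1 + t := by
    rw [hρ, mul_pow, ← pow_mul, mul_comm i, pow_mul, hζ.pow_eq_one, one_pow, one_mul, hρ0]
  have ht1 : v t < 1 := ht.trans_le (pow_le_one' hℓ1.le 2)
  have hρ1 : v ρ = 1 := by
    have h5 : v ρ ^ ℓ = 1 := by
      rw [← v.map_pow, hρℓ, v.map_one_add_of_lt ht1]
    exact (pow_eq_one_iff_left hℓp.out.ne_zero).mp h5
  have hρ0' : ρ ≠ 0 := v.pos_iff.mp (hρ1 ▸ one_pos)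
  refine ⟨ρ, hρℓ, fun σ hσ hσt => ?_⟩
  by_contra hne
  set ξ := σ ρ / ρ with hξ
  have hξℓ : ξ ^ ℓ = 1 := by
    rw [hξ, div_pow, ← map_pow, hρℓ, map_add, map_one, hσt, div_self]
    rw [← hρℓ]
    exact pow_ne_zero _ hρ0'
  have hξ1 : ξ ≠ 1 := by
    intro h
    rw [hξ, div_eq_one_iff_eq hρ0'] at h
    exact hne h
  have hξp : IsPrimitiveRoot ξ ℓ := by
    have h6 := orderOf_eq_prime hξℓ hξ1
    rw [← h6]
    exact IsPrimitiveRoot.orderOf ξ
  have h7 : v (1 - ξ) ≤ v (1 - ρ) := by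
    have h8 : (1 - ξ) * ρ = ρ - σ ρ := by
      rw [hξ]; field_simp
    have h9 : v (1 - ξ) = v (ρ - σ ρ) := by rw [← h8, v.map_mul, hρ1, mul_one]
    rw [h9]
    have h10 : ρ - σ ρ = σ (1 - ρ) - (1 - ρ) := by rw [map_sub, map_one]; ring
    rw [h10]
    exact v.map_sub_le (hσ _).le le_rfl
  have h11 := val_le_one_sub_pow v hξp
  have h12 : v (ℓ : Ω) ^ ℓ ≤ v t ^ (ℓ - 1) := by
    calc v (ℓ : Ω) ^ ℓ ≤ (v (1 - ξ) ^ (ℓ - 1)) ^ ℓ := pow_le_pow_left' h11 _
      _ = (v (1 - ξ) ^ ℓ) ^ (ℓ - 1) := by rw [← pow_mul, ← pow_mul, mul_comm]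
      _ ≤ (v (1 - ρ) ^ ℓ) ^ (ℓ - 1) := pow_le_pow_left' (pow_le_pow_left' h7 _) _
      _ ≤ v t ^ (ℓ - 1) := pow_le_pow_left' hi _
  have hℓ2 := hℓp.out.two_le
  have h13 : v t ^ (ℓ - 1) < (v (ℓ : Ω) ^ 2) ^ (ℓ - 1) :=
    pow_lt_pow_left₀ ht (zero_le) (by omega)
  have h14 : (v (ℓ : Ω) ^ 2) ^ (ℓ - 1) ≤ v (ℓ : Ω) ^ ℓ := by
    rw [← pow_mul]
    exact pow_le_pow_right_of_le_one' hℓ1.le (by omega)
  exact absurd (h12.trans_lt (h13.trans_le h14)) (lt_irrefl _)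

end

variable (ℓ : ℕ) [hℓp : Fact ℓ.Prime] (K : Type u) [Field K]
  {Γ₀ : Type*} [LinearOrderedCommGroupWithZero Γ₀]
  (v : Valuation (AlgebraicClosure K) Γ₀)

omit hℓp in
lemma charZero_of_val_lt_one (hℓ : v (ℓ : AlgebraicClosure K) < 1) (hℓ0 : (ℓ : K) ≠ 0) :
    CharZero K := by
  rcases CharP.exists' K with h | ⟨p, hp, hpc⟩
  · exact h
  · exfalso
    have h1 : ¬ p ∣ ℓ := by
      intro h
      exact hℓ0 ((CharP.cast_eq_zero_iff K p ℓ).mpr h)
    have h2 : (ℓ : ZMod p) ^ (p - 1) = 1 := by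
      apply ZMod.pow_card_sub_one_eq_one
      intro h
      exact h1 ((ZMod.natCast_eq_zero_iff ℓ p).mp h)
    have h3 : (ℓ : K) ^ (p - 1) = 1 := by
      have := congrArg (ZMod.castHom (dvd_refl p) K) h2
      simpa using this
    have h3' : (ℓ : AlgebraicClosure K) ^ (p - 1) = 1 := by
      have := congrArg (algebraMap K (AlgebraicClosure K)) h3
      simpa using this
    have h4 : v (ℓ : AlgebraicClosure K) ^ (p - 1) = 1 := by rw [← v.map_pow, h3', v.map_one]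
    have h5 : v (ℓ : AlgebraicClosure K) = 1 := by
      have hp1 : p - 1 ≠ 0 := by have := hp.out.two_le; omega
      exact (pow_eq_one_iff_left hp1).mp h4
    exact absurd h5 hℓ.ne

/-- All cyclic algebras over `L = ℓ^∞√K` split when `K` is a henselian valued field of residue
characteristic `ℓ`. -/
theorem isSplit_of_invariant (ζ : K) (hζ : IsPrimitiveRoot ζ ℓ)
    (hv : ∀ (σ : AlgebraicClosure K ≃ₐ[K] AlgebraicClosure K) (x : AlgebraicClosure K),
      v (σ x) = v x) (hℓ1 : v (ℓ : AlgebraicClosure K) < 1)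
    (a b : radClosure ℓ K) (ha : a ≠ 0) (hb : b ≠ 0) :
    IsSplit ℓ (algebraMap K (radClosure ℓ K) ζ) a b := by
  have hℓK0 : (ℓ : K) ≠ 0 := by
    have : NeZero ℓ := ⟨hℓp.out.ne_zero⟩
    exact hζ.neZero'.out
  have : CharZero K := charZero_of_val_lt_one ℓ K v hℓ1 hℓK0
  set Lf : Subfield (AlgebraicClosure K) := (radClosure ℓ K).toSubfield with hLf
  have hDL : ∀ d ∈ radSet ℓ K, d ∈ Lf := fun d hd => radSet_subset ℓ K hd
  have hroot : ∀ d ∈ radSet ℓ K, ∃ e ∈ radSet ℓ K, e ^ ℓ = d :=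
    fun d hd => exists_root_mem_radSet ℓ K hℓp.out.pos hd
  have hℓD : (ℓ : AlgebraicClosure K) ∈ radSet ℓ K := by
    have := algebraMap_mem_radSet ℓ K (ℓ : K)
    rwa [map_natCast] at this
  have hℓ0 : (ℓ : AlgebraicClosure K) ≠ 0 := by
    intro h
    apply hℓK0
    apply (algebraMap K (AlgebraicClosure K)).injective
    rw [map_natCast, h, map_zero]
  have hrep : ∀ a ∈ Lf, a ≠ 0 → ∃ δ ∈ radSet ℓ K, δ ≠ 0 ∧
      ∃ a' ∈ AddSubmonoid.closure {d | d ∈ radSet ℓ K ∧ v d ≤ 1},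
      a = δ * a' ∧ ∃ m : ℕ, v (ℓ : AlgebraicClosure K) ^ m ≤ v a' :=
    fun a ha ha0 => exists_representation hζ hv ha ha0
  have hℓn : 0 < v (ℓ : AlgebraicClosure K) := v.pos_iff.mpr hℓ0
  have ha' : (a : AlgebraicClosure K) ≠ 0 := by simpa using ha
  have hb' : (b : AlgebraicClosure K) ≠ 0 := by simpa using hb
  obtain ⟨d, hd, y, hy, hy1, hbd⟩ :=
    exists_pow_mul_one_add_lt v hDL hroot hℓD hℓ1 hℓ0 hrep (a := (b : AlgebraicClosure K)) b.2 hb'
  -- the first entry, with `x ≠ 0`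
  obtain ⟨c, hc, x, hx, hx1, hx0, hac⟩ : ∃ c ∈ Lf, ∃ x ∈ Lf, v x < v (ℓ : AlgebraicClosure K) ∧
      x ≠ 0 ∧ (a : AlgebraicClosure K) = c ^ ℓ * (1 + x) := by
    obtain ⟨c, hc, x, hx, hx1, hac⟩ :=
      exists_pow_mul_one_add_lt v hDL hroot hℓD hℓ1 hℓ0 hrep
        (a := (a : AlgebraicClosure K)) a.2 ha'
    by_cases hx0 : x = 0
    · have h1 : ((1 : AlgebraicClosure K) + ℓ) ≠ 0 := by
        have : ((1 + ℓ : ℕ) : AlgebraicClosure K) ≠ 0 := Nat.cast_ne_zero.mpr (by omega)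
        push_cast at this
        exact this
      have hb1 := val_add_pow_sub_le_of_le v ℓ Lf (natCast_mem Lf ℓ) Lf.one_mem
        (by rw [v.map_one]; exact hℓ1.le)
      rw [v.map_one, one_pow, one_pow, mul_one, add_comm _ (1 : AlgebraicClosure K)] at hb1
      have hb2 : v (((1 : AlgebraicClosure K) + ℓ) ^ ℓ - 1) < v (ℓ : AlgebraicClosure K) := by
        have h2 : ((1 : AlgebraicClosure K) + ℓ) ^ ℓ - 1 =
          (((1 : AlgebraicClosure K) + ℓ) ^ ℓ - (ℓ : AlgebraicClosure K) ^ ℓ - 1) +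
            (ℓ : AlgebraicClosure K) ^ ℓ := by ring
        rw [h2]
        apply v.map_add_lt
        · exact hb1.trans_lt (mul_lt_of_lt_one_right hℓn hℓ1)
        · rw [v.map_pow]
          calc v (ℓ : AlgebraicClosure K) ^ ℓ ≤ v (ℓ : AlgebraicClosure K) ^ 2 :=
                pow_le_pow_right_of_le_one' hℓ1.le hℓp.out.two_le
            _ < v (ℓ : AlgebraicClosure K) := by
                rw [sq]; exact mul_lt_of_lt_one_right hℓn hℓ1
      have h3 : ((1 : AlgebraicClosure K) + ℓ) ^ ℓ - 1 ≠ 0 := by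
        intro h
        have h4 : (((1 + ℓ) ^ ℓ : ℕ) : AlgebraicClosure K) = ((1 : ℕ) : AlgebraicClosure K) := by
          push_cast
          exact sub_eq_zero.mp h
        have h5 : (1 + ℓ) ^ ℓ = 1 := Nat.cast_injective h4
        have h6 : 1 < (1 + ℓ) ^ ℓ :=
          Nat.one_lt_pow hℓp.out.ne_zero (by have := hℓp.out.pos; omega)
        omega
      refine ⟨c * (1 + (ℓ : AlgebraicClosure K))⁻¹, Lf.mul_mem hc (Lf.inv_mem (Lf.add_mem
        Lf.one_mem (natCast_mem Lf ℓ))), ((1 : AlgebraicClosure K) + ℓ) ^ ℓ - 1,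
        Lf.sub_mem (Lf.pow_mem (Lf.add_mem Lf.one_mem (natCast_mem Lf ℓ)) _) Lf.one_mem,
        hb2, h3, ?_⟩
      rw [hac, hx0, add_zero, mul_one, add_sub_cancel, mul_pow, mul_assoc, ← mul_pow,
        inv_mul_cancel₀ h1, one_pow, mul_one]
    · exact ⟨c, hc, x, hx, hx1, hx0, hac⟩
  -- the root of `1 - x y`
  have ht : v (-(x * y)) < v (ℓ : AlgebraicClosure K) ^ 2 := by
    rw [v.map_neg, v.map_mul, sq]
    exact mul_lt_mul'' hx1 hy1 (zero_le) (zero_le)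
  have hζΩ : IsPrimitiveRoot (algebraMap K (AlgebraicClosure K) ζ) ℓ :=
    hζ.map_of_injective (algebraMap K (AlgebraicClosure K)).injective
  obtain ⟨ρ, hρ, hρfix⟩ := exists_root_fixed v hζΩ hℓ1 ht
  have hρL : ρ ∈ Lf := by
    have hgal : IsGalois (radClosure ℓ K) (AlgebraicClosure K) := inferInstance
    have h1 := (InfiniteGalois.mem_range_algebraMap_iff_fixed
      (k := radClosure ℓ K) (K := AlgebraicClosure K) ρ).mpr (by
        intro f
        apply hρfix (f : AlgebraicClosure K →+* AlgebraicClosure K)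
        · intro z
          exact hv (f.restrictScalars K) z
        · have h2 : -(x * y) ∈ Lf := Lf.neg_mem (Lf.mul_mem hx hy)
          exact f.commutes (⟨-(x * y), h2⟩ : radClosure ℓ K))
    obtain ⟨r, hr⟩ := h1
    rw [← hr]
    exact r.2
  -- transfer to `L`
  let xL : radClosure ℓ K := ⟨x, hx⟩
  let yL : radClosure ℓ K := ⟨y, hy⟩
  let cL : radClosure ℓ K := ⟨c, hc⟩
  let dL : radClosure ℓ K := ⟨d, hd⟩
  let wL : radClosure ℓ K := ⟨ρ, hρL⟩
  have hζL : IsPrimitiveRoot (algebraMap K (radClosure ℓ K) ζ) ℓ :=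
    hζ.map_of_injective (algebraMap K (radClosure ℓ K)).injective
  have hxL0 : -xL ≠ 0 := by
    rw [neg_ne_zero]
    intro h
    exact hx0 (congrArg Subtype.val h)
  have hw : 1 - (-xL) * (-yL) = wL ^ ℓ := by
    apply Subtype.ext
    change (1 : AlgebraicClosure K) - (-x) * (-y) = ρ ^ ℓ
    rw [hρ]; ring
  have hwL0 : wL ≠ 0 := by
    intro h
    have h1 : ρ = 0 := congrArg Subtype.val h
    rw [h1, zero_pow hℓp.out.ne_zero] at hρ
    have h2 : -(x * y) = -1 := by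
      have : (1 : AlgebraicClosure K) + -(x * y) = 0 := hρ.symm
      linear_combination this
    rw [h2, v.map_neg, v.map_one] at ht
    have h3 : v (ℓ : AlgebraicClosure K) ^ 2 ≤ 1 := pow_le_one' hℓ1.le 2
    exact absurd (ht.trans_le h3) (lt_irrefl _)
  have hSp := Sp.of_one_sub_mul hℓp.out.pos hζL hwL0 hxL0 hw
  rw [sub_neg_eq_add, sub_neg_eq_add] at hSp
  have hac' : a = cL ^ ℓ * (1 + xL) := Subtype.ext hac
  have hbd' : b = dL ^ ℓ * (1 + yL) := Subtype.ext hbd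
  have hcL0 : cL ≠ 0 := by
    intro h
    rw [h, zero_pow hℓp.out.ne_zero, zero_mul] at hac'
    exact ha hac'
  have hSp2 : Sp hζL.pow_eq_one a b := by
    rw [hac', hbd']
    exact (hSp.mul_pow_left hcL0).mul_pow_right dL
  obtain ⟨z, hz⟩ := hSp2
  have hℓL : (ℓ : radClosure ℓ K) ≠ 0 := by
    intro h
    have := congrArg (Subtype.val) h
    exact hℓ0 (by simpa using this)
  exact isSplit_of_kumNorm hℓp.out.pos hζL hℓL ha hb z hz

end Pool.Agent.Helper26.Val
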