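import Pool.Agent.Helper26.CyclicAlgebra

/-!
# The norm relation of a Kummer algebra
-/

namespace Pool.Agent.Helper26

open Polynomial

universe u

variable {F : Type u} [Field F] {ℓ : ℕ} {ζ : F}

lemma prod_one_sub_root {A : Type*} [CommRing A] [Algebra F A] (hℓ : 0 < ℓ)
    (hζ : IsPrimitiveRoot ζ ℓ) (y : A) :
    ∏ i ∈ Finset.range ℓ, (1 - algebraMap F A (ζ ^ i) * y) = 1 - y ^ ℓ := by
  have h1 : (X : F[X][X]) ^ ℓ - C ((X : F[X]) ^ ℓ) =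
      ∏ i ∈ Finset.range ℓ, (X - C (C ζ ^ i * X)) :=
    X_pow_sub_C_eq_prod (hζ.map_of_injective (C_injective)) hℓ rfl
  have h2 := congrArg (fun p : F[X][X] => aeval y (eval 1 p)) h1
  simp only [eval_prod, eval_sub, eval_pow, eval_X, eval_C, map_sub,
    map_prod, one_pow, aeval_X, map_one, map_pow] at h2
  rw [h2]
  apply Finset.prod_congr rfl
  intro i _
  rw [map_mul, map_pow, map_pow, aeval_C, aeval_X]

/-- `Sp hζ a b` : `b` is a norm from the Kummer algebra `F[x] / (x ^ ℓ - a)`. -/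
def Sp (hζ : ζ ^ ℓ = 1) (a b : F) : Prop :=
  ∃ z : Kum ℓ a, kumNorm hζ z ℓ = algebraMap F _ b

lemma Sp.mul {hζ : ζ ^ ℓ = 1} {a b c : F} (h1 : Sp hζ a b) (h2 : Sp hζ a c) :
    Sp hζ a (b * c) := by
  obtain ⟨z, hz⟩ := h1
  obtain ⟨w, hw⟩ := h2
  refine ⟨z * w, ?_⟩
  rw [map_mul, ← hz, ← hw, kumNorm, kumNorm, kumNorm, ← Finset.prod_mul_distrib]
  apply Finset.prod_congr rfl
  intro i _
  rw [map_mul]

lemma Sp.pow_ell (hζ : ζ ^ ℓ = 1) (a c : F) : Sp hζ a (c ^ ℓ) := by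
  refine ⟨algebraMap F _ c, ?_⟩
  rw [kumNorm]
  simp only [AlgHom.commutes, Finset.prod_const, Finset.card_range, map_pow]

lemma Sp.pow {hζ : ζ ^ ℓ = 1} {a b : F} (h1 : Sp hζ a b) (n : ℕ) : Sp hζ a (b ^ n) := by
  induction n with
  | zero =>
    simpa using Sp.pow_ell hζ a 1
  | succ n ih => rw [pow_succ]; exact ih.mul h1

lemma Sp.inv {hζ : ζ ^ ℓ = 1} {a b : F} (hℓ : 0 < ℓ) (hb : b ≠ 0) (h1 : Sp hζ a b) :
    Sp hζ a b⁻¹ := by
  have h2 : b⁻¹ = b ^ (ℓ - 1) * (b⁻¹) ^ ℓ := by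
    have h3 : (b⁻¹) ^ ℓ = (b⁻¹) ^ (ℓ - 1) * b⁻¹ := by
      rw [← pow_succ, Nat.sub_add_cancel hℓ]
    rw [h3, ← mul_assoc, ← mul_pow, mul_inv_cancel₀ hb, one_pow, one_mul]
  rw [h2]
  exact (h1.pow _).mul (Sp.pow_ell hζ a _)

/-- Changing the second entry by an `ℓ`-th power. -/
lemma Sp.mul_pow_right {hζ : ζ ^ ℓ = 1} {a b : F} (c : F) (h1 : Sp hζ a b) :
    Sp hζ a (c ^ ℓ * b) := (Sp.pow_ell hζ a c).mul h1

/-- Changing the first entry by an `ℓ`-th power. -/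
lemma Sp.mul_pow_left {hζ : ζ ^ ℓ = 1} {a b : F} {c : F} (hc : c ≠ 0) (h1 : Sp hζ a b) :
    Sp hζ (c ^ ℓ * a) b := by
  obtain ⟨z, hz⟩ := h1
  set x' := AdjoinRoot.root (X ^ ℓ - C (c ^ ℓ * a) : F[X]) with hx'
  let f : Kum ℓ a →ₐ[F] Kum ℓ (c ^ ℓ * a) :=
    AdjoinRoot.liftAlgHom (X ^ ℓ - C a : F[X]) (Algebra.ofId F _) (c⁻¹ • x') (by
      rw [eval₂_sub, eval₂_pow, eval₂_X, eval₂_C, _root_.smul_pow, hx', kum_root_pow,
        Algebra.smul_def, ← map_mul, ← mul_assoc, ← mul_pow,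
        inv_mul_cancel₀ hc, one_pow, one_mul]
      exact sub_self _)
  have hf : f (AdjoinRoot.root _) = c⁻¹ • x' := by
    simp only [f]
    rw [AdjoinRoot.liftAlgHom_root]
  have hcomm : ∀ y, f (kumSigma ℓ ζ a hζ y) = kumSigma ℓ ζ (c ^ ℓ * a) hζ (f y) := by
    intro y
    have : f.comp (kumSigma ℓ ζ a hζ) = (kumSigma ℓ ζ (c ^ ℓ * a) hζ).comp f := by
      apply AdjoinRoot.algHom_ext
      rw [AlgHom.comp_apply, AlgHom.comp_apply, kumSigma_root, hf, map_smul, map_smul, hf, hx',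
        kumSigma_root, smul_comm]
    exact DFunLike.congr_fun this y
  have hcomm2 : ∀ (i : ℕ) y, f ((kumSigma ℓ ζ a hζ ^ i) y) =
      (kumSigma ℓ ζ (c ^ ℓ * a) hζ ^ i) (f y) := by
    intro i
    induction i with
    | zero => intro y; rfl
    | succ i ih =>
      intro y
      rw [pow_succ', pow_succ', AlgHom.mul_apply, AlgHom.mul_apply, hcomm, ih]
  refine ⟨f z, ?_⟩
  have h3 := congrArg f hz
  rw [AlgHom.commutes] at h3
  rw [← h3, kumNorm, kumNorm, map_prod]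
  apply Finset.prod_congr rfl
  intro i _
  rw [hcomm2]

/-- The Steinberg relation. -/
lemma Sp.steinberg (hℓ : 0 < ℓ) (hζ : IsPrimitiveRoot ζ ℓ) (a : F) :
    Sp hζ.pow_eq_one a (1 - a) := by
  refine ⟨1 - AdjoinRoot.root _, ?_⟩
  have h1 : ∀ i ∈ Finset.range ℓ, ((kumSigma ℓ ζ a hζ.pow_eq_one) ^ i)
      (1 - AdjoinRoot.root (X ^ ℓ - C a : F[X])) =
      1 - algebraMap F (Kum ℓ a) (ζ⁻¹ ^ i) * AdjoinRoot.root (X ^ ℓ - C a : F[X]) := by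
    intro i _
    rw [map_sub, map_one, AlgHom.coe_pow, kumSigma_iter_root, Algebra.smul_def]
  rw [kumNorm, Finset.prod_congr rfl h1, prod_one_sub_root hℓ hζ.inv, kum_root_pow, map_sub,
    map_one]

/-- The three term relation. -/
lemma Sp.of_add (hℓ : 0 < ℓ) (hζ : IsPrimitiveRoot ζ ℓ) {a b w : F} (hw : w ≠ 0)
    (h : a + b = w ^ ℓ) : Sp hζ.pow_eq_one a b := by
  have hw' : w⁻¹ ≠ 0 := inv_ne_zero hw
  have h1 := Sp.steinberg hℓ hζ (w⁻¹ ^ ℓ * a)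
  have h2 : 1 - w⁻¹ ^ ℓ * a = w⁻¹ ^ ℓ * b := by
    have : w⁻¹ ^ ℓ * w ^ ℓ = 1 := by
      rw [← mul_pow, inv_mul_cancel₀ hw, one_pow]
    rw [← h] at this
    rw [← this]
    ring
  rw [h2] at h1
  have h3 := (h1.mul_pow_left hw).mul_pow_right w
  have h4 : ∀ x : F, w ^ ℓ * (w⁻¹ ^ ℓ * x) = x := by
    intro x
    rw [← mul_assoc, ← mul_pow, mul_inv_cancel₀ hw, one_pow, one_mul]
  rwa [h4, h4] at h3

/-- If `1 - x y` is an `ℓ`-th power then `1 - y` is a norm from the algebra of `1 - x`. -/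
lemma Sp.of_one_sub_mul (hℓ : 0 < ℓ) (hζ : IsPrimitiveRoot ζ ℓ) {x y w : F} (hw : w ≠ 0)
    (hx : x ≠ 0) (h : 1 - x * y = w ^ ℓ) : Sp hζ.pow_eq_one (1 - x) (1 - y) := by
  have h1 : Sp hζ.pow_eq_one (1 - x) (x * (1 - y)) :=
    Sp.of_add hℓ hζ hw (by rw [← h]; ring)
  have h2 : Sp hζ.pow_eq_one (1 - x) x := by
    have := Sp.steinberg hℓ hζ (1 - x)
    rwa [sub_sub_cancel] at this
  have h3 := (h2.inv hℓ hx).mul h1
  rwa [← mul_assoc, inv_mul_cancel₀ hx, one_mul] at h3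

end Pool.Agent.Helper26
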