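import Mathlib

/-!
# The field `ℓ^∞√K`
-/

namespace Pool.Agent.Helper26

universe u

/-- The set of all elements of the algebraic closure of `K` some `ℓ ^ n`-th power of which
lies in `K`. -/
def radSet (ℓ : ℕ) (K : Type u) [Field K] : Set (AlgebraicClosure K) :=
  {x | ∃ n : ℕ, ∃ c : K, x ^ ℓ ^ n = algebraMap K (AlgebraicClosure K) c}

/-- The field `ℓ^∞√K` obtained from `K` by adjoining all `ℓ ^ n`-th roots (`n ≥ 0`) of all
elements of `K`. -/
noncomputable def radClosure (ℓ : ℕ) (K : Type u) [Field K] :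
    IntermediateField K (AlgebraicClosure K) :=
  IntermediateField.adjoin K (radSet ℓ K)

variable (ℓ : ℕ) (K : Type u) [Field K]

lemma radSet_subset {d : AlgebraicClosure K} (hd : d ∈ radSet ℓ K) : d ∈ radClosure ℓ K :=
  IntermediateField.subset_adjoin _ _ hd

lemma algebraMap_mem_radSet (c : K) : algebraMap K (AlgebraicClosure K) c ∈ radSet ℓ K :=
  ⟨0, c, by simp⟩

lemma mul_mem_radSet {x y : AlgebraicClosure K} (hx : x ∈ radSet ℓ K) (hy : y ∈ radSet ℓ K) :
    x * y ∈ radSet ℓ K := by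
  obtain ⟨n, c, hc⟩ := hx
  obtain ⟨m, d, hd⟩ := hy
  refine ⟨n + m, c ^ ℓ ^ m * d ^ ℓ ^ n, ?_⟩
  rw [mul_pow, pow_add, pow_mul, hc, mul_comm (ℓ ^ n), pow_mul, hd, map_mul, map_pow, map_pow]

lemma one_mem_radSet : (1 : AlgebraicClosure K) ∈ radSet ℓ K := ⟨0, 1, by simp⟩

lemma exists_root_mem_radSet (hℓ : 0 < ℓ) {d : AlgebraicClosure K} (hd : d ∈ radSet ℓ K) :
    ∃ e ∈ radSet ℓ K, e ^ ℓ = d := by
  obtain ⟨e, he⟩ := IsAlgClosed.exists_pow_nat_eq d hℓ
  obtain ⟨n, c, hc⟩ := hd
  refine ⟨e, ⟨n + 1, c, ?_⟩, he⟩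
  rw [pow_succ', pow_mul, he, hc]

lemma mem_closure_radSet {a : AlgebraicClosure K} (ha : a ∈ radClosure ℓ K) :
    a ∈ AddSubmonoid.closure (radSet ℓ K) := by
  have h1 : (radClosure ℓ K).toSubalgebra = Algebra.adjoin K (radSet ℓ K) :=
    IntermediateField.adjoin_toSubalgebra _
  have h2 : a ∈ Algebra.adjoin K (radSet ℓ K) := by rw [← h1]; exact ha
  have h3 : a ∈ Submodule.span K (radSet ℓ K) := by
    have h4 := Algebra.adjoin_eq_span K (radSet ℓ K)
    have h5 : (Submonoid.closure (radSet ℓ K) : Set (AlgebraicClosure K)) = radSet ℓ K := by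
      let M : Submonoid (AlgebraicClosure K) :=
        { carrier := radSet ℓ K
          mul_mem' := fun hx hy => mul_mem_radSet ℓ K hx hy
          one_mem' := one_mem_radSet ℓ K }
      have : Submonoid.closure (radSet ℓ K) = M := Submonoid.closure_eq M
      rw [this]
      rfl
    rw [h5] at h4
    rw [← h4]
    exact h2
  clear h1 h2 ha
  induction h3 using Submodule.span_induction with
  | mem x hx => exact AddSubmonoid.subset_closure hx
  | zero => exact AddSubmonoid.zero_mem _
  | add x y _ _ hx hy => exact AddSubmonoid.add_mem _ hx hy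
  | smul c x _ hx =>
    clear * - hx
    induction hx using AddSubmonoid.closure_induction with
    | mem x hx =>
      apply AddSubmonoid.subset_closure
      rw [Algebra.smul_def]
      exact mul_mem_radSet ℓ K (algebraMap_mem_radSet ℓ K c) hx
    | zero => rw [smul_zero]; exact AddSubmonoid.zero_mem _
    | add x y _ _ hx hy => rw [smul_add]; exact AddSubmonoid.add_mem _ hx hy

end Pool.Agent.Helper26
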