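import Pool.Agent.Helper26.CommWidth

/-!
# Powers of elements of the commutator subgroup of a solvable group
-/

open scoped commutatorElement

namespace Pool.Agent.Helper26.CW

universe u

variable {G : Type u} [Group G]

lemma closure_map_top {H : Type u} [Group H] (f : G →* H) (hf : Function.Surjective f)
    (ys : List G) (hgen : Subgroup.closure {y | y ∈ ys} = ⊤) :
    Subgroup.closure {y | y ∈ ys.map f} = ⊤ := by
  have : {y | y ∈ ys.map f} = f '' {y | y ∈ ys} := by
    ext x; simp
  rw [this, ← MonoidHom.map_closure, hgen, Subgroup.map_top_of_surjective f hf]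

lemma derivedSeries_quotient (A : Subgroup G) [A.Normal] (n : ℕ) :
    derivedSeries (G ⧸ A) n = (derivedSeries G n).map (QuotientGroup.mk' A) :=
  (map_derivedSeries_eq (QuotientGroup.mk'_surjective A) n).symm

lemma mk_central (A : Subgroup G) [A.Normal] {a : G} (ha : a ∈ A) :
    (QuotientGroup.mk a : G ⧸ ⁅A, (⊤ : Subgroup G)⁆) ∈ Subgroup.center _ := by
  rw [Subgroup.mem_center_iff]
  intro g
  obtain ⟨g, rfl⟩ := QuotientGroup.mk_surjective g
  rw [← QuotientGroup.mk_mul, ← QuotientGroup.mk_mul, QuotientGroup.eq]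
  have h : (g * a)⁻¹ * (a * g) = ⁅a⁻¹, g⁻¹⁆ := by
    rw [commutatorElement_def]; group
  rw [h]
  exact Subgroup.commutator_mem_commutator (A.inv_mem ha) (Subgroup.mem_top _)

lemma lift_center (A : Subgroup G) [hAn : A.Normal] (hA : ∀ a ∈ A, ∀ b ∈ A, a * b = b * a)
    (ys : List G) (hgen : Subgroup.closure {y | y ∈ ys} = ⊤) {n : ℕ} {g : G}
    (h : IsProdComm n (QuotientGroup.mk g : G ⧸ ⁅A, (⊤ : Subgroup G)⁆)) :
    IsProdComm (n + ys.length) g := by
  obtain ⟨c, a, hc, ha, rfl⟩ := exists_of_quotient _ h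
  refine hc.mul (isProdComm_of_mem_commutator_top A ys hgen ?_ ha)
  intro r hr g s hs
  refine hA _ ?_ s hs
  rw [commutatorElement_def, mul_assoc, mul_assoc]
  refine A.mul_mem hr ?_
  rw [← mul_assoc]
  exact hAn.conj_mem _ (A.inv_mem hr) g

lemma comm_of_commutator_eq_bot {A : Subgroup G} (h : ⁅A, A⁆ = ⊥) :
    ∀ a ∈ A, ∀ b ∈ A, a * b = b * a := by
  intro a ha b hb
  have : ⁅a, b⁆ ∈ ⁅A, A⁆ := Subgroup.commutator_mem_commutator ha hb
  rw [h, Subgroup.mem_bot, commutatorElement_eq_one_iff_mul_comm] at this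
  exact this

theorem width_metabelian (ys : List G) (hgen : Subgroup.closure {y | y ∈ ys} = ⊤)
    (h2 : derivedSeries G 2 = ⊥) {g : G} (hg : g ∈ derivedSeries G 1) :
    IsProdComm (ys.length + ys.length) g := by
  set A := derivedSeries G 1 with hA
  have hAA : ⁅A, A⁆ = ⊥ := h2
  refine lift_center A (comm_of_commutator_eq_bot hAA) ys hgen ?_
  set K := ⁅A, (⊤ : Subgroup G)⁆ with hK
  have hg' : (QuotientGroup.mk g : G ⧸ K) ∈ derivedSeries (G ⧸ K) 1 := by
    rw [derivedSeries_quotient]
    exact ⟨g, hg, rfl⟩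
  have := isProdComm_of_mem_commutator_top (⊤ : Subgroup (G ⧸ K)) (ys.map (QuotientGroup.mk' K))
    (closure_map_top _ (QuotientGroup.mk'_surjective K) ys hgen) ?_
    (z := (QuotientGroup.mk g : G ⧸ K))
    (by rw [derivedSeries_succ, derivedSeries_zero] at hg'; exact hg')
  · simpa using this
  · intro r _ g s _
    obtain ⟨r, rfl⟩ := QuotientGroup.mk_surjective r
    obtain ⟨g, rfl⟩ := QuotientGroup.mk_surjective g
    have h1 : ⁅r, g⁆ ∈ A := by
      rw [hA, derivedSeries_succ, derivedSeries_zero]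
      exact Subgroup.commutator_mem_commutator (Subgroup.mem_top _) (Subgroup.mem_top _)
    have h2 := mk_central A h1
    exact (comm_of_center h2 s).symm

/-- The commutator subgroup is the normal closure of the commutators of generators. -/
lemma derivedSeries_one_eq (ys : List G) (hgen : Subgroup.closure {y | y ∈ ys} = ⊤) :
    derivedSeries G 1 =
      Subgroup.normalClosure {c | c ∈ (ys.product ys).map (fun p => ⁅p.1, p.2⁆)} := by
  rw [derivedSeries_succ, derivedSeries_zero]
  set NC := Subgroup.normalClosure {c | c ∈ (ys.product ys).map (fun p => ⁅p.1, p.2⁆)} with hNC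
  have hn : NC.Normal := Subgroup.normalClosure_normal
  apply le_antisymm
  · have h1 : ∀ x ∈ ys, ∀ g : G, ⁅g, x⁆ ∈ NC := by
      intro x hx g
      have hg : g ∈ Subgroup.closure {y | y ∈ ys} := hgen ▸ Subgroup.mem_top g
      induction hg using Subgroup.closure_induction with
      | mem y hy =>
        refine Subgroup.subset_normalClosure ?_
        simp only [List.mem_map, Set.mem_ofPred_eq]
        exact ⟨(y, x), List.pair_mem_product.2 ⟨hy, hx⟩, rfl⟩
      | one => simp
      | mul g h _ _ hg hh =>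
        have : ⁅g * h, x⁆ = g * ⁅h, x⁆ * g⁻¹ * ⁅g, x⁆ := by
          simp only [commutatorElement_def]; group
        rw [this]
        exact NC.mul_mem (hn.conj_mem _ hh g) hg
      | inv g _ hg =>
        have : ⁅g⁻¹, x⁆ = g⁻¹ * ⁅g, x⁆⁻¹ * g⁻¹⁻¹ := by
          simp only [commutatorElement_def]; group
        rw [this]
        exact hn.conj_mem _ (NC.inv_mem hg) g⁻¹
    have h2 : ∀ h g : G, ⁅g, h⁆ ∈ NC := by
      intro h
      have hh : h ∈ Subgroup.closure {y | y ∈ ys} := hgen ▸ Subgroup.mem_top h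
      induction hh using Subgroup.closure_induction with
      | mem y hy => exact h1 y hy
      | one => simp
      | mul h h' _ _ hh hh' =>
        intro g
        have : ⁅g, h * h'⁆ = ⁅g, h⁆ * (h * ⁅g, h'⁆ * h⁻¹) := by
          simp only [commutatorElement_def]; group
        rw [this]
        exact NC.mul_mem (hh g) (hn.conj_mem _ (hh' g) h)
      | inv h _ hh =>
        intro g
        have : ⁅g, h⁻¹⁆ = h⁻¹ * ⁅g, h⁆⁻¹ * h⁻¹⁻¹ := by
          simp only [commutatorElement_def]; group
        rw [this]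
        exact hn.conj_mem _ (NC.inv_mem (hh g)) h⁻¹
    rw [Subgroup.commutator_le]
    intro g _ h _
    exact h2 h g
  · refine Subgroup.normalClosure_le_normal ?_
    intro c hc
    simp only [List.mem_map, Set.mem_ofPred_eq] at hc
    obtain ⟨p, -, rfl⟩ := hc
    exact Subgroup.commutator_mem_commutator (Subgroup.mem_top _) (Subgroup.mem_top _)

section quot

variable (m : ℕ)

/-- The image of `derivedSeries G m` modulo `⁅derivedSeries G (m+1), G⁆`. -/
lemma quot_central (r : G ⧸ ⁅derivedSeries G (m + 1), (⊤ : Subgroup G)⁆)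
    (hr : r ∈ derivedSeries (G ⧸ ⁅derivedSeries G (m + 1), (⊤ : Subgroup G)⁆) m)
    (s : G ⧸ ⁅derivedSeries G (m + 1), (⊤ : Subgroup G)⁆)
    (hs : s ∈ derivedSeries (G ⧸ ⁅derivedSeries G (m + 1), (⊤ : Subgroup G)⁆) m) :
    ⁅r, s⁆ ∈ Subgroup.center (G ⧸ ⁅derivedSeries G (m + 1), (⊤ : Subgroup G)⁆) := by
  rw [derivedSeries_quotient] at hr hs
  obtain ⟨r, hr, rfl⟩ := hr
  obtain ⟨s, hs, rfl⟩ := hs
  have : ⁅r, s⁆ ∈ derivedSeries G (m + 1) := by
    rw [derivedSeries_succ]
    exact Subgroup.commutator_mem_commutator hr hs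
  exact mk_central _ this

lemma quot_mem {a : G} (ha : a ∈ derivedSeries G (m + 1)) :
    (QuotientGroup.mk a : G ⧸ ⁅derivedSeries G (m + 1), (⊤ : Subgroup G)⁆) ∈
      ⁅derivedSeries (G ⧸ ⁅derivedSeries G (m + 1), (⊤ : Subgroup G)⁆) m,
        derivedSeries (G ⧸ ⁅derivedSeries G (m + 1), (⊤ : Subgroup G)⁆) m⁆ := by
  rw [← derivedSeries_succ, derivedSeries_quotient]
  exact ⟨a, ha, rfl⟩

end quot

/-- Squares of elements of the last term of the derived series. -/
theorem width_sq_last (ys : List G) (hgen : Subgroup.closure {y | y ∈ ys} = ⊤) (m : ℕ)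
    (h : derivedSeries G (m + 2) = ⊥) {a : G} (ha : a ∈ derivedSeries G (m + 1)) :
    IsProdComm (2 * ys.length + ys.length) (a ^ 2) := by
  refine lift_center (derivedSeries G (m + 1)) (comm_of_commutator_eq_bot h) ys hgen ?_
  have := isProdComm_sq (derivedSeries (G ⧸ ⁅derivedSeries G (m + 1), (⊤ : Subgroup G)⁆) m)
    (quot_central m) (ys.map (QuotientGroup.mk' _))
    (closure_map_top _ (QuotientGroup.mk'_surjective _) ys hgen) (quot_mem m ha)
  rw [List.length_map] at this
  rw [QuotientGroup.mk_pow]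
  exact this

theorem width_center (ys : List G) (hgen : Subgroup.closure {y | y ∈ ys} = ⊤) (R : Subgroup G)
    [R.Normal] (hR : R = derivedSeries G 1)
    (hc : ∀ r ∈ R, ∀ s ∈ R, ⁅r, s⁆ ∈ Subgroup.center G)
    {z : G} (hz : z ∈ ⁅R, R⁆) :
    IsProdComm (ys.length * ys.length) z := by
  have h1 := hR.trans (derivedSeries_one_eq ys hgen)
  have h2 : ((ys.product ys).map (fun p => ⁅p.1, p.2⁆)).length = ys.length * ys.length := by
    rw [List.length_map]
    exact List.length_product ys ys
  generalize (ys.product ys).map (fun p => ⁅p.1, p.2⁆) = cs at h1 h2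
  rw [← h2]
  exact isProdComm_of_normalClosure R hc cs h1 hz

theorem width_last_two (ys : List G) (hgen : Subgroup.closure {y | y ∈ ys} = ⊤) (m : ℕ)
    (hm : m = 1) (h : derivedSeries G (m + 2) = ⊥) {a : G} (ha : a ∈ derivedSeries G (m + 1)) :
    IsProdComm (ys.length * ys.length + ys.length) a := by
  refine lift_center (derivedSeries G (m + 1)) (comm_of_commutator_eq_bot h) ys hgen ?_
  have h4 := width_center (ys.map (QuotientGroup.mk' ⁅derivedSeries G (m + 1), (⊤ : Subgroup G)⁆))
    (closure_map_top _ (QuotientGroup.mk'_surjective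
      ⁅derivedSeries G (m + 1), (⊤ : Subgroup G)⁆) ys hgen)
    (derivedSeries (G ⧸ ⁅derivedSeries G (m + 1), (⊤ : Subgroup G)⁆) m)
    (by rw [hm]) (quot_central (G := G) m) (quot_mem m ha)
  rw [List.length_map] at h4
  exact h4

theorem width_three (ys : List G) (hgen : Subgroup.closure {y | y ∈ ys} = ⊤)
    (h3 : derivedSeries G 3 = ⊥) {g : G} (hg : g ∈ derivedSeries G 1) :
    IsProdComm ((ys.length + ys.length) + (ys.length * ys.length + ys.length)) g := by
  have h1 : (QuotientGroup.mk g : G ⧸ derivedSeries G 2) ∈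
      derivedSeries (G ⧸ derivedSeries G 2) 1 := by
    rw [derivedSeries_quotient]; exact ⟨g, hg, rfl⟩
  have h2 : derivedSeries (G ⧸ derivedSeries G 2) 2 = ⊥ := by
    rw [derivedSeries_quotient, QuotientGroup.map_mk'_self]
  have h4 := width_metabelian (ys.map (QuotientGroup.mk' (derivedSeries G 2)))
    (closure_map_top _ (QuotientGroup.mk'_surjective _) ys hgen) h2 h1
  rw [List.length_map] at h4
  obtain ⟨c, a, hc, ha, rfl⟩ := exists_of_quotient _ h4
  refine hc.mul ?_
  exact width_last_two ys hgen 1 rfl h3 ha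

/-- The main induction. -/
theorem width_pow (k d : ℕ) : ∃ N : ℕ, ∀ (G : Type u) [Group G] (ys : List G),
    ys.length = k → Subgroup.closure {y | y ∈ ys} = ⊤ → derivedSeries G (d + 3) = ⊥ →
    ∀ g ∈ derivedSeries G 1, IsProdComm N (g ^ (2 ^ d)) := by
  induction d with
  | zero =>
    refine ⟨(k + k) + (k * k + k), ?_⟩
    intro G _ ys hk hgen h3 g hg
    subst hk
    simpa using width_three ys hgen h3 hg
  | succ d ih =>
    obtain ⟨N, hN⟩ := ih
    refine ⟨N + N + 1 + (2 * k + k), ?_⟩
    intro G _ ys hk hgen h g hg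
    subst hk
    have h1 : (QuotientGroup.mk g : G ⧸ derivedSeries G (d + 3)) ∈
        derivedSeries (G ⧸ derivedSeries G (d + 3)) 1 := by
      rw [derivedSeries_quotient]; exact ⟨g, hg, rfl⟩
    have h2 : derivedSeries (G ⧸ derivedSeries G (d + 3)) (d + 3) = ⊥ := by
      rw [derivedSeries_quotient, QuotientGroup.map_mk'_self]
    have h4 := hN (G ⧸ derivedSeries G (d + 3)) (ys.map (QuotientGroup.mk' _)) (by simp)
      (closure_map_top _ (QuotientGroup.mk'_surjective _) ys hgen) h2 _ h1
    rw [← QuotientGroup.mk_pow] at h4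
    obtain ⟨c, a, hc, ha, hca⟩ := exists_of_quotient _ h4
    have h5 : g ^ (2 ^ (d + 1)) = c * c * ⁅c⁻¹, a⁆ * a ^ 2 := by
      rw [pow_succ, pow_mul, hca, pow_two, pow_two, commutatorElement_def]
      group
    rw [h5]
    exact ((hc.mul hc).mul (isProdComm_comm _ _)).mul
      (width_sq_last ys hgen (d + 2) h ha)

/-- Write a product of `N` commutators with functions on `Fin N`. -/
lemma IsProdComm.exists_fin {N : ℕ} {g : G} (h : IsProdComm N g) :
    ∃ a b : Fin N → G, g = (List.ofFn (fun i : Fin N => a i * b i * (a i)⁻¹ * (b i)⁻¹)).prod := by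
  obtain ⟨l, rfl, rfl⟩ := h
  refine ⟨fun i => (l.get i).1, fun i => (l.get i).2, ?_⟩
  have : (List.ofFn (fun i : Fin l.length => (l.get i).1 * (l.get i).2 * ((l.get i).1)⁻¹ *
      ((l.get i).2)⁻¹)) = l.map (fun p => ⁅p.1, p.2⁆) := by
    rw [← List.ofFn_get (l.map (fun p => ⁅p.1, p.2⁆))]
    apply List.ext_get
    · simp
    · intro n h1 h2
      simp [commutatorElement_def]
  rw [this]

lemma width_mod {F : Type} [Group F] (k d e N : ℕ) (he : (d - 3) + 3 = e)
    (hN : ∀ (G : Type) [Group G] (ys : List G),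
      ys.length = k → Subgroup.closure {y | y ∈ ys} = ⊤ → derivedSeries G e = ⊥ →
      ∀ g ∈ derivedSeries G 1, IsProdComm N (g ^ (2 ^ (d - 3)))) (ys : List F)
    (hgen : Subgroup.closure {y | y ∈ ys} = ⊤) (hlen : ys.length = k) (g : F)
    (hg : g ∈ derivedSeries F 1) : ∃ a b : Fin N → F,
        g ^ (2 ^ (d - 3)) *
          ((List.ofFn (fun i : Fin N => a i * b i * (a i)⁻¹ * (b i)⁻¹)).prod)⁻¹ ∈
            derivedSeries F d := by
  have h1 : (QuotientGroup.mk g : F ⧸ derivedSeries F e) ∈
      derivedSeries (F ⧸ derivedSeries F e) 1 := by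
    rw [derivedSeries_quotient]; exact ⟨g, hg, rfl⟩
  have h2 : derivedSeries (F ⧸ derivedSeries F e) e = ⊥ := by
    rw [derivedSeries_quotient, QuotientGroup.map_mk'_self]
  have h3 := hN (F ⧸ derivedSeries F e) (ys.map (QuotientGroup.mk' _)) (by simpa using hlen)
    (closure_map_top _ (QuotientGroup.mk'_surjective _) _ hgen) h2 _ h1
  rw [← QuotientGroup.mk_pow] at h3
  obtain ⟨c, a, hc, ha, hca⟩ := exists_of_quotient _ h3
  obtain ⟨x, y, hxy⟩ := hc.exists_fin
  refine ⟨x, y, ?_⟩
  rw [← hxy, hca]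
  have hle : derivedSeries F e ≤ derivedSeries F d := derivedSeries_antitone F (by omega)
  have hn : (derivedSeries F d).Normal := inferInstance
  exact hn.conj_mem _ (hle ha) c

/-- The free group of rank `k`: the `2^(d-3)`-th power of every element of the commutator
subgroup is, modulo the `d`-th derived subgroup, a product of boundedly many commutators. -/
theorem freeGroup_width (k d : ℕ) : ∃ N : ℕ, ∀ g : FreeGroup (Fin k),
    g ∈ derivedSeries (FreeGroup (Fin k)) 1 →
      ∃ a b : Fin N → FreeGroup (Fin k),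
        g ^ (2 ^ (d - 3)) *
          ((List.ofFn (fun i : Fin N => a i * b i * (a i)⁻¹ * (b i)⁻¹)).prod)⁻¹ ∈
            derivedSeries (FreeGroup (Fin k)) d := by
  obtain ⟨N, hN⟩ := width_pow.{0} k (d - 3)
  refine ⟨N, ?_⟩
  have hgen : Subgroup.closure
      {y | y ∈ List.ofFn (fun i : Fin k => (FreeGroup.of i : FreeGroup (Fin k)))} = ⊤ := by
    have : {y | y ∈ List.ofFn (fun i : Fin k => (FreeGroup.of i : FreeGroup (Fin k)))} =
        Set.range (FreeGroup.of : Fin k → FreeGroup (Fin k)) := by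
      ext x; simp
    rw [this, FreeGroup.closure_range_of]
  have hlen : (List.ofFn (fun i : Fin k => (FreeGroup.of i : FreeGroup (Fin k)))).length = k := by
    simp
  exact fun g hg => width_mod k d _ N rfl hN _ hgen hlen g hg

end Pool.Agent.Helper26.CW
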